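import Pool.Agent.Lib.MP_3b3418_ag.PV.SpecD

/-!
# Bott vanishing for the Borel subgroup
-/

set_option autoImplicit false

namespace PV

open MP3s

private theorem Bo_swsw {m : ℕ} (η : Fin m → ℤ) (i j : Fin m) :
    (fun k => (fun l => η (Equiv.swap i j l)) (Equiv.swap i j k)) = η := by
  funext k
  change η (Equiv.swap i j (Equiv.swap i j k)) = η k
  rw [← Equiv.Perm.mul_apply, Equiv.swap_mul_self, Equiv.Perm.one_apply]

/-- The combinatorial part: `A η q` and `F η q` are the statements for the identity and for `f`. -/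
private theorem Bo_comb {m : ℕ} (A F : (Fin m → ℤ) → ℕ → Prop) (K : Prop) (hIv : S_Iv)
    (h0 : ∀ (η : Fin m → ℤ) (i j : Fin m), j.val = i.val + 1 → η i = η j → ∀ q, A η q)
    (hS : ∀ (η : Fin m → ℤ) (i j : Fin m), j.val = i.val + 1 → η j < η i →
      (∀ q, A η q ↔ A (fun k => η (Equiv.swap i j k)) (q + 1)) ∧
      (∀ q, F η q ↔ F (fun k => η (Equiv.swap i j k)) (q + 1)) ∧
      A (fun k => η (Equiv.swap i j k)) 0)
    (hcd : ∀ (η : Fin m → ℤ) (q : ℕ), m * (m - 1) / 2 < q → A η q)
    (hinv : K → F (del m) 0) (hAF : ∀ (η : Fin m → ℤ) (q : ℕ), A η q → F η q)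
    (η : Fin m → ℤ) (q : ℕ) (h : Function.Injective η → invn η = q → IsPm η ∧ K) : F η q := by
  have up : ∀ (η : Fin m → ℤ) (i j : Fin m), j.val = i.val + 1 → η i < η j →
      ∃ η' : Fin m → ℤ, invn η = invn η' + 1 ∧ (Function.Injective η' ↔ Function.Injective η) ∧
        (IsPm η' ↔ IsPm η) ∧ (∀ q, A η' q ↔ A η (q + 1)) ∧ (∀ q, F η' q ↔ F η (q + 1)) ∧
        A η 0 := by
    intro η i j hij hlt
    have e1 : (fun l => η (Equiv.swap i j l)) i = η j := by
      change η (Equiv.swap i j i) = η j
      rw [Equiv.swap_apply_left]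
    have e2 : (fun l => η (Equiv.swap i j l)) j = η i := by
      change η (Equiv.swap i j j) = η i
      rw [Equiv.swap_apply_right]
    have h3 : (fun l => η (Equiv.swap i j l)) j < (fun l => η (Equiv.swap i j l)) i := by
      rw [e1, e2]
      exact hlt
    have h4 := hS (fun l => η (Equiv.swap i j l)) i j hij h3
    have h5 := (hIv m (fun l => η (Equiv.swap i j l))).1 i j hij h3
    rw [Bo_swsw] at h4 h5
    have h6 := (hIv m η).2.1 i j
    exact ⟨fun l => η (Equiv.swap i j l), h5, h6.1, h6.2, h4.1, h4.2.1, h4.2.2⟩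
  -- (a)
  have ha : ∀ (n : ℕ) (η : Fin m → ℤ), invn η = n → ¬ Function.Injective η → ∀ q, A η q := by
    intro n
    induction n using Nat.strong_induction_on with
    | _ n ih =>
      intro η hn hη q
      by_cases he : ∃ i j : Fin m, j.val = i.val + 1 ∧ η i = η j
      · obtain ⟨i, j, hij, hh⟩ := he
        exact h0 η i j hij hh q
      · by_cases hasc : ∃ i j : Fin m, j.val = i.val + 1 ∧ η i < η j
        · obtain ⟨i, j, hij, hh⟩ := hasc
          obtain ⟨η', hi, hinj, _, hA, _, hA0⟩ := up η i j hij hh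
          rcases q with _ | q
          · exact hA0
          · refine (hA q).1 (ih (invn η') (by omega) η' rfl ?_ q)
            intro h7
            exact hη (hinj.1 h7)
        · exfalso
          refine he ((hIv m η).2.2.2.1 ?_ hη)
          intro i j hij
          by_contra h7
          exact hasc ⟨i, j, hij, not_le.mp h7⟩
  -- (b)
  have hb : ∀ (q : ℕ) (η : Fin m → ℤ), q < invn η → A η q := by
    intro q
    induction q with
    | zero =>
      intro η hq
      obtain ⟨i, j, hij, hh⟩ := (hIv m η).2.2.1 hq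
      obtain ⟨η', _, _, _, _, _, hA0⟩ := up η i j hij hh
      exact hA0
    | succ q ih =>
      intro η hq
      obtain ⟨i, j, hij, hh⟩ := (hIv m η).2.2.1 (by omega)
      obtain ⟨η', hi, _, _, hA, _, _⟩ := up η i j hij hh
      exact (hA q).1 (ih η' (by omega))
  -- (c)
  have hc : ∀ (d : ℕ) (η : Fin m → ℤ) (q : ℕ), Function.Injective η → invn η < q →
      m * (m - 1) / 2 + 1 ≤ q + d → A η q := by
    intro d
    induction d with
    | zero =>
      intro η q _ _ hq
      exact hcd η q (by omega)
    | succ d ih =>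
      intro η q hη hlt hq
      by_cases hdes : ∃ i j : Fin m, j.val = i.val + 1 ∧ η j < η i
      · obtain ⟨i, j, hij, hh⟩ := hdes
        have h5 := (hIv m η).1 i j hij hh
        have h6 := ((hIv m η).2.1 i j).1.2 hη
        refine ((hS η i j hij hh).1 q).2 (ih _ (q + 1) h6 ?_ (by omega))
        rw [h5]
        omega
      · have h7 : invn η = m * (m - 1) / 2 := by
          refine (hIv m η).2.2.2.2.1 ?_
          intro i j hij
          have h8 : η i ≤ η j := by
            by_contra h9
            exact hdes ⟨i, j, hij, not_le.mp h9⟩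
          have h10 : i ≠ j := by
            intro h11
            rw [h11] at hij
            omega
          exact lt_of_le_of_ne h8 fun h11 => h10 (hη h11)
        exact hcd η q (by omega)
  -- (d)
  have hd : K → ∀ (n : ℕ) (η : Fin m → ℤ), invn η = n → IsPm η → F η n := by
    intro hK n
    induction n with
    | zero =>
      intro η hn hP
      have h8 : η = del m := by
        refine (hIv m η).2.2.2.2.2 hP ?_
        intro i j hij
        by_contra h9
        obtain ⟨η', hi, _⟩ := up η i j hij (not_le.mp h9)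
        omega
      rw [h8]
      exact hinv hK
    | succ n ih =>
      intro η hn hP
      obtain ⟨i, j, hij, hh⟩ := (hIv m η).2.2.1 (by omega)
      obtain ⟨η', hi, _, hP', _, hF, _⟩ := up η i j hij hh
      exact (hF n).1 (ih η' (by omega) (hP'.2 hP))
  by_cases hη : Function.Injective η
  · rcases lt_trichotomy q (invn η) with h1 | h1 | h1
    · exact hAF η q (hb q η h1)
    · obtain ⟨h2, h3⟩ := h hη h1.symm
      exact hd h3 q η h1.symm h2
    · exact hAF η q (hc (m * (m - 1) / 2 + 1) η q hη h1 (by omega))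
  · exact hAF η q (ha _ η rfl hη q)

private theorem Bo_tw0 {m : ℕ} {V : Type} [AddCommGroup V] [Module ℂ V]
    (ρ : Representation ℂ (Bo m) V) : tw ρ 0 = ρ := by
  refine MonoidHom.ext fun b => ?_
  change chr 0 b • ρ b = ρ b
  have h : chr (0 : Fin m → ℤ) b = 1 := by
    unfold chr
    exact Finset.prod_eq_one fun i _ => by rw [Pi.zero_apply, zpow_zero]
  rw [h, one_smul]

private theorem Bo_sw {m : ℕ} (η : Fin m → ℤ) (i j : Fin m) (hij : j.val = i.val + 1) (r : ℕ)
    (hr : (del m - η) j - (del m - η) i = r) :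
    (del m - η) + ((r : ℤ) + 1) • root i j = del m - fun k => η (Equiv.swap i j k) := by
  have hne : i ≠ j := by
    intro h
    rw [h] at hij
    omega
  have hd : del m j = del m i - 1 := by
    unfold del
    rw [hij]
    push_cast
    ring
  have hr' : (r : ℤ) = η i - η j - 1 := by
    rw [← hr, Pi.sub_apply, Pi.sub_apply, hd]
    ring
  funext k
  rw [Pi.add_apply, Pi.sub_apply, Pi.smul_apply, Pi.sub_apply, hr']
  by_cases hki : k = i
  · subst hki
    have h1 : root k j k = 1 := by
      unfold root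
      rw [if_pos rfl, if_neg hne]
      ring
    rw [h1, Equiv.swap_apply_left, smul_eq_mul]
    ring
  · by_cases hkj : k = j
    · subst hkj
      have h1 : root i k k = -1 := by
        unfold root
        rw [if_pos rfl, if_neg hki]
        ring
      rw [h1, Equiv.swap_apply_right, smul_eq_mul]
      ring
    · have h1 : root i j k = 0 := by
        unfold root
        rw [if_neg hki, if_neg hkj]
        ring
      rw [h1, Equiv.swap_apply_of_ne_of_ne hki hkj, smul_zero, add_zero]

theorem tBo : S_Mor → S_Tw → S_Sw → S_L → S_Cd → S_Iv → S_Emb → S_Inv → S_VZ → S_Bo := by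
  intro hMor hTw hSw hL hCd hIv hEmb hInv hVZ m V _ _ ρG ρ hG hρ f hf η q hh
  have hR : Rat ρ := by
    intro v
    have h1 := (hG v).comp (hMor m).2.2.2.2.1
    have h2 : (fun b : Bo m => ρ b v) = fun b : Bo m => ρG b.1 v := by
      funext b
      rw [hρ]
    rw [h2]
    exact h1
  have hRt : ∀ μ : Fin m → ℤ, Rat (tw ρ μ) := by
    intro μ v
    exact (hR v).smul ((hMor m).2.2.2.2.2 μ)
  -- the structure of an `AlphaMod`
  have hAM : ∀ i j : Fin m, j.val = i.val + 1 →
      ∃ σ : Representation ℂ (SLm 2) V, AlphaMod i j 0 ρ σ := by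
    intro i j hij
    obtain ⟨⟨e, he, hMe⟩, _, _, huniq⟩ := hEmb m i j hij
    refine ⟨ρG.comp e, hR, ?_, ?_⟩
    · intro v
      exact (hG v).comp hMe
    · intro g b _ hb
      have h1 : b.1 = e g := huniq g _ _ hb (he g)
      rw [zpow_zero, one_smul, hρ, h1]
      rfl
  have hne : ∀ i j : Fin m, j.val = i.val + 1 → i ≠ j := by
    intro i j hij h
    rw [h] at hij
    omega
  have hdel : ∀ i j : Fin m, j.val = i.val + 1 → del m j = del m i - 1 := by
    intro i j hij
    unfold del
    rw [hij]
    push_cast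
    ring
  refine Bo_comb (fun η q => Zq (tw ρ (del m - η)) LinearMap.id q)
    (fun η q => Zq (tw ρ (del m - η)) f q) (∀ v, (∀ b, ρ b v = v) → f v = 0) hIv
    ?_ ?_ ?_ ?_ ?_ η q hh
  · intro η i j hij hη q
    obtain ⟨σ, hσ⟩ := hAM i j hij
    have h1 := (hTw m i j (hne i j hij) 0 V ρ σ (del m - η)).1 hσ
    have h2 : (0 : ℤ) + (del m - η) i - (del m - η) j = 1 := by
      rw [Pi.sub_apply, Pi.sub_apply, hdel i j hij, hη]
      ring
    rw [h2] at h1
    exact hL m i j hij V (tw ρ (del m - η)) σ h1 q
  · intro η i j hij hη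
    obtain ⟨σ, hσ⟩ := hAM i j hij
    obtain ⟨r, hr⟩ : ∃ r : ℕ, (del m - η) j - (del m - η) i = r := by
      refine ⟨((del m - η) j - (del m - η) i).toNat, ?_⟩
      rw [Int.toNat_of_nonneg]
      rw [Pi.sub_apply, Pi.sub_apply, hdel i j hij]
      linarith [Int.add_one_le_iff.2 hη]
    have h1 := hSw m i j hij V ρ σ hσ (del m - η) r hr
    rw [Bo_sw η i j hij r hr] at h1
    exact ⟨h1.1 LinearMap.id (fun b v => rfl), h1.1 f hf, h1.2⟩
  · intro η q hq
    exact hCd m V (tw ρ (del m - η)) (hRt _) q hq
  · intro hK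
    change Zq (tw ρ (del m - del m)) f 0
    rw [sub_self, Bo_tw0]
    exact (hInv m V ρ f).2 hK
  · intro η q hA
    refine (hVZ m V V (tw ρ (del m - η)) (tw ρ (del m - η))).1 f q ?_ hA
    intro b v
    change f (chr (del m - η) b • ρ b v) = chr (del m - η) b • ρ b (f v)
    rw [map_smul, hf]

end PV
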