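import Pool.Agent.Lib.MP_3b3418_ag.PV.SpecD

/-!
# Con: regular functions on `SL_m` invariant under right translation by `B` are constant
-/

set_option autoImplicit false

namespace PV

open MP3s

/-- The element `1 + c E_ab` of `SL_m`. -/
private def Con_tv {m : ℕ} (a b : Fin m) (h : a ≠ b) (c : ℂ) : SLm m :=
  ⟨Matrix.transvection a b c, Matrix.det_transvection_of_ne a b h c⟩

private theorem Con_mat {m : ℕ} (a b : Fin m) (h : a ≠ b) (c : ℂ) :
    mat (Con_tv a b h c) = 1 + Matrix.single a b c := rfl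

/-- Elements of `SL_m` with the same matrix are equal. -/
private theorem Con_ext {m : ℕ} {x y : SLm m} (h : mat x = mat y) : x = y := Subtype.ext h

/-- The stabiliser of `F` under right translations. -/
private def Con_H {m : ℕ} (F : SLm m → ℂ) : Subgroup (SLm m) where
  carrier := {y | ∀ g, F (g * y) = F g}
  mul_mem' {x y} hx hy g := by
    rw [← mul_assoc, hy, hx]
  one_mem' g := by rw [mul_one]
  inv_mem' {y} hy g := by
    have h := hy (g * y⁻¹)
    rw [inv_mul_cancel_right] at h
    exact h.symm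

private theorem Con_mem {m : ℕ} {F : SLm m → ℂ} {y : SLm m} :
    y ∈ Con_H F ↔ ∀ g, F (g * y) = F g := Iff.rfl

/-- The commutator of two elementary matrices. -/
private theorem Con_comm {m : ℕ} {a b c : Fin m} (hab : a ≠ b) (hbc : b ≠ c) (hac : a ≠ c)
    (t : ℂ) : Con_tv a c hac t = Con_tv a b hab 1 * Con_tv b c hbc t *
      Con_tv a b hab (-1) * Con_tv b c hbc (-t) := by
  apply Con_ext
  rw [mat_mul, mat_mul, mat_mul, Con_mat, Con_mat, Con_mat, Con_mat, Con_mat]
  have e1 : Matrix.single a b (-1 : ℂ) = -Matrix.single a b 1 := by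
    rw [Matrix.single_neg]
  have e2 : Matrix.single b c (-t) = -Matrix.single b c t := by
    rw [Matrix.single_neg]
  have h1 : Matrix.single a b (1 : ℂ) * Matrix.single b c t = Matrix.single a c t := by
    rw [Matrix.single_mul_single_same, one_mul]
  have h2 : Matrix.single a b (1 : ℂ) * Matrix.single a b (1 : ℂ) = 0 :=
    Matrix.single_mul_single_of_ne _ _ _ _ hab.symm _
  have h3 : Matrix.single b c t * Matrix.single a b (1 : ℂ) = 0 :=
    Matrix.single_mul_single_of_ne _ _ _ _ hac.symm _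
  have h4 : Matrix.single b c t * Matrix.single b c t = 0 :=
    Matrix.single_mul_single_of_ne _ _ _ _ hbc.symm _
  rw [e1, e2]
  generalize Matrix.single a b (1 : ℂ) = X at *
  generalize Matrix.single b c t = Y at *
  rw [← h1]
  have h5 : (1 + X) * (1 + Y) * (1 + -X) * (1 + -Y) = 1 + X * Y - X * X + X * X * Y -
      Y * X + Y * X * Y - X * Y * X + X * (Y * X) * Y - Y * Y - X * (Y * Y) := by
    noncomm_ring
  rw [h5, h2, h3, h4]
  simp only [mul_zero, zero_mul, sub_zero, add_zero, mul_assoc, h3]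

/-- The stabiliser contains the blocks of `SL_2`. -/
private theorem Con_blk (hR : S_RGa) (hS : S_SLb) (hE : S_Emb) {m : ℕ}
    {F : SLm m → ℂ} (hF : Reg F) (hB : ∀ (g : SLm m) (b : Bo m), F (g * b.1) = F g)
    (i j : Fin m) (hij : j.val = i.val + 1) (y : SLm 2) (x : SLm m) (hx : Blk i j y x) :
    x ∈ Con_H F := by
  obtain ⟨⟨e, he, hMe⟩, hb, -, huni⟩ := hE m i j hij
  have htr : Rat (Representation.trivial ℂ (Bo m) ℂ) := fun v => Reg.const v
  obtain ⟨-, -, -, ρG, hρ, hρG⟩ := hR m ℂ (Representation.trivial ℂ (Bo m) ℂ) htr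
  have hrat : Rat (ρG.comp e : Representation ℂ (SLm 2) (RG m ℂ)) := fun v => (hρ v).comp hMe
  have h1 := hS (RG m ℂ) (ρG.comp e) hrat ⟨F, hF⟩ (fun g hg => by
    obtain ⟨b, hb1⟩ := hb g hg
    have h2 : e g = b.1 := huni g _ _ (he g) hb1
    refine Subtype.ext (funext fun z => ?_)
    change (ρG (e g) ⟨F, hF⟩).1 z = F z
    rw [hρG, h2]
    exact hB z b) y
  have h3 : x = e y := huni y _ _ hx (he y)
  rw [Con_mem, h3]
  intro g
  have h4 := congrArg (fun f : RG m ℂ => f.1 g) h1
  change (ρG (e y) ⟨F, hF⟩).1 g = F g at h4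
  rw [hρG] at h4
  exact h4

/-- The stabiliser contains the lower elementary matrices next to the diagonal. -/
private theorem Con_adj (hR : S_RGa) (hS : S_SLb) (hE : S_Emb) {m : ℕ}
    {F : SLm m → ℂ} (hF : Reg F) (hB : ∀ (g : SLm m) (b : Bo m), F (g * b.1) = F g)
    (a b : Fin m) (hab : a ≠ b) (hd : a.val = b.val + 1) (c : ℂ) :
    Con_tv a b hab c ∈ Con_H F := by
  refine Con_blk hR hS hE hF hB b a hd ⟨!![1, 0; c, 1], by
    rw [Matrix.det_fin_two_of]; ring⟩ _ ?_
  intro k l
  rw [Con_mat]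
  change (1 : Gl m) k l + Matrix.single a b c k l =
    if k = b then (if l = b then (1 : ℂ) else if l = a then 0 else 0)
    else if k = a then (if l = b then c else if l = a then 1 else 0)
    else if k = l then 1 else 0
  rw [Matrix.one_apply, Matrix.single_apply]
  have hba : b ≠ a := hab.symm
  by_cases h1 : k = b
  · rw [if_pos h1, if_neg (c := a = k ∧ b = l) (fun h => hab (h.1.trans h1)), add_zero]
    by_cases h2 : l = b
    · rw [if_pos h2, if_pos (h1.trans h2.symm)]
    · rw [if_neg h2, if_neg (c := k = l) (fun h => h2 (h.symm.trans h1))]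
      split_ifs <;> rfl
  · rw [if_neg h1]
    by_cases h2 : k = a
    · rw [if_pos h2]
      by_cases h3 : l = b
      · rw [if_pos h3, if_pos (c := a = k ∧ b = l) ⟨h2.symm, h3.symm⟩,
          if_neg (c := k = l) (fun h => h1 (h.trans h3)), zero_add]
      · rw [if_neg h3, if_neg (c := a = k ∧ b = l) (fun h => h3 h.2.symm), add_zero]
        by_cases h4 : l = a
        · rw [if_pos h4, if_pos (h2.trans h4.symm)]
        · rw [if_neg h4, if_neg (c := k = l) (fun h => h4 (h.symm.trans h2))]
    · rw [if_neg h2, if_neg (c := a = k ∧ b = l) (fun h => h2 h.1.symm), add_zero]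

/-- The stabiliser contains the lower elementary matrices. -/
private theorem Con_low (hR : S_RGa) (hS : S_SLb) (hE : S_Emb) {m : ℕ}
    {F : SLm m → ℂ} (hF : Reg F) (hB : ∀ (g : SLm m) (b : Bo m), F (g * b.1) = F g) (d : ℕ) :
    ∀ (a b : Fin m) (hab : a ≠ b), a.val = b.val + (d + 1) → ∀ c : ℂ,
      Con_tv a b hab c ∈ Con_H F := by
  induction d with
  | zero =>
    intro a b hab hd c
    exact Con_adj hR hS hE hF hB a b hab hd c
  | succ d ih =>
    intro a b hab hd c
    have hlt : a.val - 1 < m := lt_of_le_of_lt (Nat.sub_le _ _) a.2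
    have hab' : a ≠ ⟨a.val - 1, hlt⟩ := by
      intro h
      have h1 := congrArg Fin.val h
      simp only at h1
      omega
    have hbb' : (⟨a.val - 1, hlt⟩ : Fin m) ≠ b := by
      intro h
      have h1 := congrArg Fin.val h
      simp only at h1
      omega
    have h1 : ∀ c : ℂ, Con_tv a ⟨a.val - 1, hlt⟩ hab' c ∈ Con_H F :=
      Con_adj hR hS hE hF hB a ⟨a.val - 1, hlt⟩ hab' (by simp only; omega)
    have h2 : ∀ c : ℂ, Con_tv ⟨a.val - 1, hlt⟩ b hbb' c ∈ Con_H F :=
      ih ⟨a.val - 1, hlt⟩ b hbb' (by simp only; omega)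
    rw [Con_comm hab' hbb' hab c]
    exact (Con_H F).mul_mem ((Con_H F).mul_mem ((Con_H F).mul_mem (h1 1) (h2 c)) (h1 (-1)))
      (h2 (-c))

/-- A product of elementary matrices is the matrix of an element of the stabiliser. -/
private theorem Con_list {m : ℕ} (H : Subgroup (SLm m))
    (hH : ∀ (a b : Fin m) (h : a ≠ b) (c : ℂ), Con_tv a b h c ∈ H)
    (L : List (Matrix.TransvectionStruct (Fin m) ℂ)) :
    ∃ p ∈ H, mat p = (L.map Matrix.TransvectionStruct.toMatrix).prod := by
  induction L with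
  | nil => exact ⟨1, H.one_mem, by rw [mat_one]; rfl⟩
  | cons t L ih =>
    obtain ⟨p, hp, hpm⟩ := ih
    refine ⟨Con_tv t.i t.j t.hij t.c * p, H.mul_mem (hH _ _ _ _) hp, ?_⟩
    rw [mat_mul, hpm, List.map_cons, List.prod_cons]
    rfl

/-- Regular functions on `SL_m` invariant under right translation by `B` are constant. -/
theorem tCon : S_RGa → S_SLb → S_Emb → S_Con := by
  intro hR hS hE m F hF hB g h
  have hBH : ∀ y : SLm m, Upper (mat y) → y ∈ Con_H F := fun y hy => by
    rw [Con_mem]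
    exact fun g => hB g ⟨y, hy⟩
  have htv : ∀ (a b : Fin m) (h : a ≠ b) (c : ℂ), Con_tv a b h c ∈ Con_H F := by
    intro a b hab c
    rcases lt_or_gt_of_ne hab with hlt | hlt
    · refine hBH _ ?_
      intro k l hkl
      rw [Con_mat, Matrix.add_apply, Matrix.one_apply_ne (ne_of_gt hkl), zero_add,
        Matrix.single_apply, if_neg]
      rintro ⟨rfl, rfl⟩
      exact absurd hkl (not_lt.mpr hlt.le)
    · have h1 : b.val < a.val := hlt
      exact Con_low hR hS hE hF hB (a.val - b.val - 1) a b hab (by omega) c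
  have hall : ∀ y : SLm m, y ∈ Con_H F := by
    intro y
    obtain ⟨L, L', D, hy⟩ := Matrix.Pivot.exists_list_transvec_mul_diagonal_mul_list_transvec
      (mat y)
    obtain ⟨p, hp, hpm⟩ := Con_list (Con_H F) htv L
    obtain ⟨p', hp', hpm'⟩ := Con_list (Con_H F) htv L'
    rw [← hpm, ← hpm'] at hy
    have h1 : mat (p⁻¹ * y * p'⁻¹) = Matrix.diagonal D := by
      rw [mat_mul, mat_mul, hy]
      have h2 : mat p⁻¹ * mat p = 1 := by
        rw [← mat_mul, inv_mul_cancel, mat_one]
      have h3 : mat p' * mat p'⁻¹ = 1 := by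
        rw [← mat_mul, mul_inv_cancel, mat_one]
      calc mat p⁻¹ * (mat p * Matrix.diagonal D * mat p') * mat p'⁻¹
          = (mat p⁻¹ * mat p) * Matrix.diagonal D * (mat p' * mat p'⁻¹) := by
            simp only [mul_assoc]
        _ = Matrix.diagonal D := by rw [h2, h3, one_mul, mul_one]
    have h4 : p⁻¹ * y * p'⁻¹ ∈ Con_H F := by
      refine hBH _ ?_
      rw [h1]
      intro k l hkl
      exact Matrix.diagonal_apply_ne _ (ne_of_gt hkl)
    have h5 : y = p * (p⁻¹ * y * p'⁻¹) * p' := by group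
    rw [h5]
    exact (Con_H F).mul_mem ((Con_H F).mul_mem hp h4) hp'
  have h6 := Con_mem.mp (hall (h⁻¹ * g)) h
  rw [mul_inv_cancel_left] at h6
  exact h6

end PV
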