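import Pool.Agent.Lib.MP_3b3418_ag.PV.SpecD

set_option autoImplicit false

namespace PV

open MP3s

theorem tD0 : S_D0 := by
  intro m i j V _ _ ρ χ θ hθ
  let e : V ≃ₗ[ℂ] Sk V 0 :=
    { toFun := fun v => ⟨fun _ => v, fun _ => v, fun z => by simp⟩
      map_add' := fun v w => Subtype.ext rfl
      map_smul' := fun c v => Subtype.ext rfl
      invFun := fun f => f.1 (0, 0)
      left_inv := fun v => rfl
      right_inv := fun f => by
        obtain ⟨f, v, hv⟩ := f
        refine Subtype.ext (funext fun z => ?_)
        change f (0, 0) = f z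
        rw [hv, hv]
        simp }
  refine ⟨e, fun b v => Subtype.ext (funext fun z => ?_), fun f F hF v =>
    Subtype.ext (funext fun z => ?_)⟩
  · rw [hθ]
    rfl
  · rw [hF]
    rfl

end PV
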