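import Pool.Agent.Lib.MP_3b3418_ag.PV.SpecD

/-!
# The first Demazure sequence
-/

set_option autoImplicit false

namespace PV

open MP3s

private theorem D1_inv {m : ℕ} (b : Bo m) (k : Fin m) : mB b⁻¹ k k = (mB b k k)⁻¹ := by
  have h1 : mB (b⁻¹ * b) k k = 1 := by
    rw [inv_mul_cancel]
    exact Matrix.one_apply_eq k
  rw [mB_diag_mul] at h1
  exact eq_inv_of_mul_eq_one_left h1

private theorem D1_chr {m : ℕ} (χ : Fin m → ℤ) (b : Bo m) (k : Fin m) (n : ℤ) :
    chr (χ - Pi.single k n) b = chr χ b / mB b k k ^ n := by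
  have h2 : (∏ l, mB b l l ^ ((Pi.single k n : Fin m → ℤ) l)) = mB b k k ^ n := by
    rw [Finset.prod_eq_single k]
    · rw [Pi.single_eq_same]
    · intro l _ hl
      rw [Pi.single_eq_of_ne hl, zpow_zero]
    · intro h
      exact absurd (Finset.mem_univ k) h
  unfold chr
  rw [← h2, ← Finset.prod_div_distrib]
  refine Finset.prod_congr rfl fun l _ => ?_
  rw [Pi.sub_apply, zpow_sub₀ (mB_diag_ne b l)]

section

variable {V : Type} [AddCommGroup V] [Module ℂ V]

private theorem D1_hom {k : ℕ} {x : ℂ × ℂ → V} (hx : x ∈ Sk V k) (a : ℂ) (z : ℂ × ℂ) :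
    x (a * z.1, a * z.2) = a ^ k • x z := by
  obtain ⟨v, hv⟩ := hx
  rw [hv, hv, Finset.smul_sum]
  refine Finset.sum_congr rfl fun l _ => ?_
  have hl : a ^ k = a ^ l.val * a ^ (k - l.val) := by
    rw [← pow_add]
    congr 1
    omega
  rw [smul_smul, hl]
  congr 1
  simp only [mul_pow]
  ring

private theorem D1_zero {k : ℕ} {x : ℂ × ℂ → V} (hx : x ∈ Sk V k)
    (h : ∀ z : ℂ × ℂ, z.2 ≠ 0 → x z = 0) : x = 0 := by
  refine funext fun z => ?_
  rw [Pi.zero_apply]
  by_cases hz : z.2 = 0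
  · rw [← Module.forall_dual_apply_eq_zero_iff ℂ]
    intro l
    obtain ⟨v, hv⟩ := hx
    have hc : Continuous fun t : ℂ => l (x (z.1, t)) := by
      have h1 : (fun t : ℂ => l (x (z.1, t))) =
          fun t : ℂ => ∑ s : Fin (k + 1), (z.1 ^ s.val * t ^ (k - s.val)) * l (v s) := by
        refine funext fun t => ?_
        rw [hv, map_sum]
        refine Finset.sum_congr rfl fun s _ => ?_
        rw [map_smul, smul_eq_mul]
      rw [h1]
      fun_prop
    have h2 : (fun t : ℂ => l (x (z.1, t))) = fun _ => 0 := by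
      refine Continuous.ext_on (dense_compl_singleton (0 : ℂ)) hc continuous_const ?_
      intro t ht
      have h3 := h (z.1, t) ht
      change l (x (z.1, t)) = 0
      rw [h3, map_zero]
    have h3 := congrFun h2 z.2
    exact h3
  · exact h z hz

private theorem D1_mul {k : ℕ} {x : ℂ × ℂ → V} (hx : x ∈ Sk V k) :
    (fun z : ℂ × ℂ => z.2 • x z) ∈ Sk V (k + 1) := by
  obtain ⟨v, hv⟩ := hx
  refine ⟨Fin.snoc (α := fun _ => V) v 0, fun z => ?_⟩
  rw [Fin.sum_univ_castSucc, Fin.snoc_last, smul_zero, add_zero]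
  change z.2 • x z = _
  rw [hv, Finset.smul_sum]
  refine Finset.sum_congr rfl fun l _ => ?_
  rw [Fin.snoc_castSucc, smul_smul]
  congr 1
  have h1 : k + 1 - (Fin.castSucc l).val = (k - l.val) + 1 := by
    rw [Fin.val_castSucc]
    omega
  rw [h1, pow_succ, Fin.val_castSucc]
  ring

private theorem D1_top {k : ℕ} {x : ℂ × ℂ → V} {v : Fin (k + 1 + 1) → V}
    (hv : ∀ z, x z = ∑ l, (z.1 ^ l.val * z.2 ^ (k + 1 - l.val)) • v l) :
    x (1, 0) = v (Fin.last (k + 1)) := by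
  rw [hv, Fin.sum_univ_castSucc]
  have h1 : ∀ l : Fin (k + 1), ((1 : ℂ) ^ (Fin.castSucc l).val *
      (0 : ℂ) ^ (k + 1 - (Fin.castSucc l).val)) • v (Fin.castSucc l) = 0 := by
    intro l
    have h2 : k + 1 - (Fin.castSucc l).val ≠ 0 := by
      rw [Fin.val_castSucc]
      omega
    rw [zero_pow h2, mul_zero, zero_smul]
  have h3 : (∑ l : Fin (k + 1), ((1 : ℂ) ^ (Fin.castSucc l).val *
      (0 : ℂ) ^ (k + 1 - (Fin.castSucc l).val)) • v (Fin.castSucc l)) = 0 :=
    Finset.sum_eq_zero fun l _ => h1 l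
  change (∑ l : Fin (k + 1), ((1 : ℂ) ^ (Fin.castSucc l).val *
      (0 : ℂ) ^ (k + 1 - (Fin.castSucc l).val)) • v (Fin.castSucc l)) +
      ((1 : ℂ) ^ (Fin.last (k + 1)).val * (0 : ℂ) ^ (k + 1 - (Fin.last (k + 1)).val)) •
        v (Fin.last (k + 1)) = v (Fin.last (k + 1))
  rw [h3, zero_add, Fin.val_last, Nat.sub_self, pow_zero, one_pow, mul_one, one_smul]

/-- Multiplication by the second variable. -/
private def D1_i (k : ℕ) : Sk V k →ₗ[ℂ] Sk V (k + 1) where
  toFun x := ⟨fun z => z.2 • x.1 z, D1_mul x.2⟩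
  map_add' x y := Subtype.ext (funext fun z => smul_add z.2 (x.1 z) (y.1 z))
  map_smul' c x := Subtype.ext (funext fun z => smul_comm z.2 c (x.1 z))

/-- The value at `(1, 0)`. -/
private def D1_p (k : ℕ) : Sk V k →ₗ[ℂ] V where
  toFun x := x.1 (1, 0)
  map_add' _ _ := rfl
  map_smul' _ _ := rfl

end

theorem tD1 : S_D1 := by
  intro m i j hij V _ _ ρ r χ θ' θ hθ' hθ
  refine ⟨D1_i r, D1_p (r + 1), ⟨?_, ?_, ?_, ?_, ?_⟩, ?_⟩
  · rw [injective_iff_map_eq_zero]
    intro x hx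
    refine Subtype.ext ?_
    refine D1_zero x.2 fun z hz => ?_
    have h1 : z.2 • x.1 z = 0 := congrFun (congrArg Subtype.val hx) z
    rcases smul_eq_zero.1 h1 with h2 | h2
    · exact absurd h2 hz
    · exact h2
  · intro v
    have hm : (fun z : ℂ × ℂ => z.1 ^ (r + 1) • v) ∈ Sk V (r + 1) := by
      refine ⟨Fin.snoc (α := fun _ => V) (fun _ => 0) v, fun z => ?_⟩
      rw [Fin.sum_univ_castSucc, Fin.snoc_last, Fin.val_last, Nat.sub_self, pow_zero, mul_one]
      have h1 : (∑ l : Fin (r + 1), (z.1 ^ (Fin.castSucc l).val *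
          z.2 ^ (r + 1 - (Fin.castSucc l).val)) •
          (Fin.snoc (α := fun _ => V) (fun _ => 0) v (Fin.castSucc l) : V)) = 0 := by
        refine Finset.sum_eq_zero fun l _ => ?_
        rw [Fin.snoc_castSucc, smul_zero]
      rw [h1, zero_add]
    refine ⟨⟨_, hm⟩, ?_⟩
    change (1 : ℂ) ^ (r + 1) • v = v
    rw [one_pow, one_smul]
  · intro x
    constructor
    · intro hx
      obtain ⟨v, hv⟩ := x.2
      have h1 : x.1 (1, 0) = 0 := hx
      rw [D1_top hv] at h1
      have hm : (fun z : ℂ × ℂ => ∑ l : Fin (r + 1), (z.1 ^ l.val * z.2 ^ (r - l.val)) •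
          v (Fin.castSucc l)) ∈ Sk V r := ⟨fun l => v (Fin.castSucc l), fun _ => rfl⟩
      refine ⟨⟨_, hm⟩, Subtype.ext (funext fun z => ?_)⟩
      change z.2 • (∑ l : Fin (r + 1), (z.1 ^ l.val * z.2 ^ (r - l.val)) •
          v (Fin.castSucc l)) = x.1 z
      have h3 := hv z
      rw [Fin.sum_univ_castSucc, h1, smul_zero, add_zero] at h3
      rw [h3, Finset.smul_sum]
      refine Finset.sum_congr rfl fun l _ => ?_
      rw [smul_smul]
      congr 1
      have h2 : r + 1 - (Fin.castSucc l).val = (r - l.val) + 1 := by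
        rw [Fin.val_castSucc]
        omega
      rw [h2, pow_succ, Fin.val_castSucc]
      ring
    · rintro ⟨y, hy⟩
      rw [← hy]
      change (0 : ℂ) • y.1 (1, 0) = 0
      rw [zero_smul]
  · intro b x
    refine Subtype.ext (funext fun z => ?_)
    rw [hθ]
    change z.2 • (θ' b x).1 z = chr χ b • ρ b ((mB b⁻¹ j j * z.2) •
      x.1 (mB b⁻¹ i i * z.1 + mB b⁻¹ i j * z.2, mB b⁻¹ j j * z.2))
    rw [hθ', map_smul, smul_smul, smul_smul, D1_chr, D1_inv b j, zpow_one]
    congr 1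
    rw [div_eq_mul_inv]
    ring
  · intro b x
    change (θ b x).1 (1, 0) = chr (χ - Pi.single i ((r : ℤ) + 1)) b • ρ b (x.1 (1, 0))
    rw [hθ, D1_chr]
    have h1 : x.1 (mB b⁻¹ i i * (1 : ℂ) + mB b⁻¹ i j * (0 : ℂ), mB b⁻¹ j j * (0 : ℂ)) =
        (mB b⁻¹ i i) ^ (r + 1) • x.1 (1, 0) := by
      rw [← D1_hom x.2]
      simp only [mul_zero, add_zero]
    change chr χ b • ρ b (x.1 (mB b⁻¹ i i * (1 : ℂ) + mB b⁻¹ i j * (0 : ℂ),
      mB b⁻¹ j j * (0 : ℂ))) = _
    rw [h1, map_smul, smul_smul, D1_inv b i]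
    congr 1
    have h2 : mB b i i ^ ((r : ℤ) + 1) = mB b i i ^ (r + 1) := by
      rw [← zpow_natCast]
      push_cast
      rfl
    rw [h2, inv_pow, div_eq_mul_inv]
  · intro f F' F hF' hF
    constructor
    · intro x
      refine Subtype.ext (funext fun z => ?_)
      change z.2 • (F' x).1 z = (F (D1_i r x)).1 z
      rw [hF, hF']
      change z.2 • f (x.1 z) = f (z.2 • x.1 z)
      rw [map_smul]
    · intro x
      exact hF x (1, 0)

end PV
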