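import Pool.Agent.Lib.MP_3b3418_ag.PV.SpecD

/-!
# The second Demazure sequence
-/

set_option autoImplicit false

namespace PV

open MP3s

section D2

/-- The polynomial with given coefficients. -/
private def D2_L (V : Type) [AddCommGroup V] [Module ℂ V] (k : ℕ) :
    (Fin (k + 1) → V) →ₗ[ℂ] Sk V k where
  toFun v := ⟨fun z => ∑ l, (z.1 ^ l.val * z.2 ^ (k - l.val)) • v l, v, fun _ => rfl⟩
  map_add' v w := by
    apply Subtype.ext
    funext z
    change (∑ l : Fin (k + 1), (z.1 ^ l.val * z.2 ^ (k - l.val)) • (v l + w l)) =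
      (∑ l : Fin (k + 1), (z.1 ^ l.val * z.2 ^ (k - l.val)) • v l) +
        ∑ l : Fin (k + 1), (z.1 ^ l.val * z.2 ^ (k - l.val)) • w l
    rw [← Finset.sum_add_distrib]
    exact Finset.sum_congr rfl fun l _ => smul_add _ _ _
  map_smul' c v := by
    apply Subtype.ext
    funext z
    change (∑ l : Fin (k + 1), (z.1 ^ l.val * z.2 ^ (k - l.val)) • (c • v l)) =
      c • ∑ l : Fin (k + 1), (z.1 ^ l.val * z.2 ^ (k - l.val)) • v l
    rw [Finset.smul_sum]
    exact Finset.sum_congr rfl fun l _ => smul_comm _ _ _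

variable {V : Type} [AddCommGroup V] [Module ℂ V]

private theorem D2_L_apply (k : ℕ) (v : Fin (k + 1) → V) (z : ℂ × ℂ) :
    (D2_L V k v).1 z = ∑ l, (z.1 ^ l.val * z.2 ^ (k - l.val)) • v l := rfl

private theorem D2_sep {v w : V} (h : ∀ φ : V →ₗ[ℂ] ℂ, φ v = φ w) : v = w := by
  rw [← sub_eq_zero, ← Module.forall_dual_apply_eq_zero_iff ℂ]
  intro φ
  rw [map_sub, sub_eq_zero]
  exact h φ

private theorem D2_inj (k : ℕ) : Function.Injective (D2_L V k) := by
  rw [injective_iff_map_eq_zero]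
  intro v hv
  funext l
  refine D2_sep fun φ => ?_
  rw [Pi.zero_apply, map_zero]
  set p : Polynomial ℂ := ∑ l : Fin (k + 1), Polynomial.monomial l.val (φ (v l)) with hp
  have h0 : p = 0 := by
    apply Polynomial.funext
    intro t
    have h1 : φ ((D2_L V k v).1 (t, 1)) = 0 := by
      rw [hv]
      exact map_zero φ
    rw [Polynomial.eval_zero, hp, Polynomial.eval_finset_sum, ← h1, D2_L_apply, map_sum]
    apply Finset.sum_congr rfl
    intro l _
    rw [Polynomial.eval_monomial, map_smul, smul_eq_mul, one_pow, mul_one, mul_comm]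
  have h2 : p.coeff l.val = φ (v l) := by
    rw [hp, Polynomial.finset_sum_coeff, Finset.sum_eq_single l]
    · rw [Polynomial.coeff_monomial, if_pos rfl]
    · intro b _ hb
      rw [Polynomial.coeff_monomial, if_neg]
      intro h
      exact hb (Fin.ext h)
    · intro h
      exact absurd (Finset.mem_univ l) h
  rw [← h2, h0, Polynomial.coeff_zero]

private theorem D2_surj (k : ℕ) : Function.Surjective (D2_L V k) := by
  intro x
  obtain ⟨v, hv⟩ := x.2
  exact ⟨v, Subtype.ext (funext fun z => (hv z).symm)⟩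

/-- Coefficients. -/
private noncomputable def D2_E (V : Type) [AddCommGroup V] [Module ℂ V] (k : ℕ) :
    (Fin (k + 1) → V) ≃ₗ[ℂ] Sk V k :=
  LinearEquiv.ofBijective (D2_L V k) ⟨D2_inj k, D2_surj k⟩

/-- The derivative on coefficients. -/
private def D2_D (V : Type) [AddCommGroup V] [Module ℂ V] (r : ℕ) :
    (Fin (r + 2) → V) →ₗ[ℂ] (Fin (r + 1) → V) where
  toFun v := fun l => ((l.val : ℂ) + 1) • v l.succ
  map_add' v w := funext fun l => smul_add _ _ _
  map_smul' c v := funext fun l => smul_comm _ _ _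

private theorem D2_D_apply (r : ℕ) (v : Fin (r + 2) → V) (l : Fin (r + 1)) :
    D2_D V r v l = ((l.val : ℂ) + 1) • v l.succ := rfl

/-- The derivative. -/
private noncomputable def D2_P (V : Type) [AddCommGroup V] [Module ℂ V] (r : ℕ) :
    Sk V (r + 1) →ₗ[ℂ] Sk V r :=
  (D2_L V r).comp ((D2_D V r).comp (D2_E V (r + 1)).symm.toLinearMap)

private theorem D2_P_apply (r : ℕ) (v : Fin (r + 2) → V) :
    D2_P V r (D2_L V (r + 1) v) = D2_L V r (D2_D V r v) := by
  have h : (D2_E V (r + 1)).symm (D2_L V (r + 1) v) = v :=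
    (D2_E V (r + 1)).symm_apply_apply v
  change D2_L V r (D2_D V r ((D2_E V (r + 1)).symm (D2_L V (r + 1) v))) = _
  rw [h]

/-- The inclusion. -/
private def D2_I (V : Type) [AddCommGroup V] [Module ℂ V] (r : ℕ) : V →ₗ[ℂ] Sk V (r + 1) :=
  (D2_L V (r + 1)).comp (LinearMap.single ℂ (fun _ : Fin (r + 2) => V) 0)

private theorem D2_I_apply (r : ℕ) (v : V) (z : ℂ × ℂ) :
    (D2_I V r v).1 z = z.2 ^ (r + 1) • v := by
  change (D2_L V (r + 1) (Pi.single 0 v)).1 z = _
  rw [D2_L_apply, Finset.sum_eq_single 0]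
  · rw [Pi.single_eq_same]
    simp
  · intro b _ hb
    rw [Pi.single_eq_of_ne hb, smul_zero]
  · intro h
    exact absurd (Finset.mem_univ _) h

private theorem D2_deriv (r : ℕ) (x : Sk V (r + 1)) (φ : V →ₗ[ℂ] ℂ) (a b : ℂ) :
    HasDerivAt (fun t : ℂ => φ (x.1 (t, b))) (φ ((D2_P V r x).1 (a, b))) a := by
  obtain ⟨v, rfl⟩ := D2_surj (r + 1) x
  rw [D2_P_apply, D2_L_apply, map_sum]
  have h1 : (fun t : ℂ => φ ((D2_L V (r + 1) v).1 (t, b))) =
      fun t => ∑ l : Fin (r + 2), t ^ l.val * (b ^ (r + 1 - l.val) * φ (v l)) := by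
    funext t
    rw [D2_L_apply, map_sum]
    refine Finset.sum_congr rfl fun l _ => ?_
    rw [map_smul, smul_eq_mul, mul_assoc]
  rw [h1]
  have h2 : HasDerivAt (fun t : ℂ => ∑ l : Fin (r + 2), t ^ l.val * (b ^ (r + 1 - l.val) * φ (v l)))
      (∑ l : Fin (r + 2), ((l.val : ℂ) * a ^ (l.val - 1)) * (b ^ (r + 1 - l.val) * φ (v l))) a :=
    HasDerivAt.fun_sum fun l _ => (hasDerivAt_pow l.val a).mul_const _
  have h3 : (∑ l : Fin (r + 2), ((l.val : ℂ) * a ^ (l.val - 1)) * (b ^ (r + 1 - l.val) * φ (v l))) =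
      ∑ l : Fin (r + 1), φ (((a, b).1 ^ l.val * (a, b).2 ^ (r - l.val)) • D2_D V r v l) := by
    rw [Fin.sum_univ_succ]
    have h4 : (((0 : Fin (r + 2)).val : ℂ) * a ^ ((0 : Fin (r + 2)).val - 1)) *
        (b ^ (r + 1 - (0 : Fin (r + 2)).val) * φ (v 0)) = 0 := by
      simp
    rw [h4, zero_add]
    refine Finset.sum_congr rfl fun l _ => ?_
    rw [map_smul, D2_D_apply, map_smul, smul_eq_mul, smul_eq_mul, Fin.val_succ, Nat.add_sub_cancel,
      Nat.add_sub_add_right]
    push_cast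
    ring
  rw [h3] at h2
  exact h2

private theorem D2_inv {m : ℕ} (b : Bo m) (k : Fin m) : mB b⁻¹ k k = (mB b k k)⁻¹ := by
  have h1 : mB (b * b⁻¹) k k = 1 := by
    rw [mul_inv_cancel]
    exact Matrix.one_apply_eq k
  rw [mB_diag_mul] at h1
  exact eq_inv_of_mul_eq_one_right h1

private theorem D2_chr {m : ℕ} (χ : Fin m → ℤ) (k : Fin m) (c : ℕ) (b : Bo m) :
    chr (χ - Pi.single k (c : ℤ)) b = chr χ b * mB b⁻¹ k k ^ c := by
  unfold chr
  rw [← Finset.prod_erase_mul _ _ (Finset.mem_univ k), ← Finset.prod_erase_mul _ _ (Finset.mem_univ k),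
    mul_assoc]
  congr 1
  · refine Finset.prod_congr rfl fun l hl => ?_
    rw [Pi.sub_apply, Pi.single_eq_of_ne (Finset.ne_of_mem_erase hl), sub_zero]
  · rw [Pi.sub_apply, Pi.single_eq_same, zpow_sub₀ (mB_diag_ne b k), D2_inv, zpow_natCast, inv_pow,
      div_eq_mul_inv]

end D2

theorem tD2 : S_D2 := by
  intro m i j _ V _ _ ρ r χ θ θ'' hθ hθ''
  refine ⟨D2_I V r, D2_P V r, ⟨?_, ?_, ?_, ?_, ?_⟩, ?_⟩
  · -- injective
    intro v w h
    have h1 := congrArg (fun x : Sk V (r + 1) => x.1 (0, 1)) h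
    simp only [D2_I_apply] at h1
    simpa using h1
  · -- surjective
    intro y
    obtain ⟨w, rfl⟩ := D2_surj r y
    refine ⟨D2_L V (r + 1) (Fin.cons 0 fun l : Fin (r + 1) => ((l.val : ℂ) + 1)⁻¹ • w l), ?_⟩
    rw [D2_P_apply]
    congr 1
    funext l
    rw [D2_D_apply, Fin.cons_succ, smul_smul, mul_inv_cancel₀, one_smul]
    exact_mod_cast Nat.succ_ne_zero l.val
  · -- exact
    intro x
    obtain ⟨v, rfl⟩ := D2_surj (r + 1) x
    constructor
    · intro h
      rw [D2_P_apply] at h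
      have h1 : D2_D V r v = 0 := D2_inj r (by rw [h, map_zero])
      refine ⟨v 0, ?_⟩
      change D2_L V (r + 1) (Pi.single 0 (v 0)) = _
      congr 1
      funext l
      refine Fin.cases ?_ (fun l => ?_) l
      · rw [Pi.single_eq_same]
      · rw [Pi.single_eq_of_ne (Fin.succ_ne_zero l)]
        have h2 := congrFun h1 l
        rw [D2_D_apply, Pi.zero_apply] at h2
        have h3 : ((l.val : ℂ) + 1) ≠ 0 := by exact_mod_cast Nat.succ_ne_zero l.val
        exact ((smul_eq_zero.mp h2).resolve_left h3).symm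
    · rintro ⟨w, hw⟩
      rw [← hw]
      change D2_P V r (D2_L V (r + 1) (Pi.single 0 w)) = 0
      rw [D2_P_apply]
      have h1 : D2_D V r (Pi.single 0 w) = 0 := by
        funext l
        rw [D2_D_apply, Pi.single_eq_of_ne (Fin.succ_ne_zero l), smul_zero, Pi.zero_apply]
      rw [h1, map_zero]
  · -- equivariance of the inclusion
    intro b v
    apply Subtype.ext
    funext z
    rw [hθ, D2_I_apply, D2_I_apply]
    have h1 : tw ρ (χ - Pi.single j ((r : ℤ) + 1)) b v =
        chr (χ - Pi.single j ((r : ℤ) + 1)) b • ρ b v := rfl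
    have h2 : ((r : ℤ) + 1) = ((r + 1 : ℕ) : ℤ) := by push_cast; ring
    rw [h1, h2, D2_chr, map_smul, smul_smul, smul_smul]
    congr 1
    rw [mul_pow]
    ring
  · -- equivariance of the derivative
    intro b x
    apply Subtype.ext
    funext z
    refine D2_sep fun φ => ?_
    have h1 := D2_deriv r (θ b x) φ z.1 z.2
    have h2 : (fun t : ℂ => φ ((θ b x).1 (t, z.2))) = fun t => chr χ b *
        (φ.comp (ρ b)) (x.1 (mB b⁻¹ i i * t + mB b⁻¹ i j * z.2, mB b⁻¹ j j * z.2)) := by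
      funext t
      rw [hθ, map_smul, smul_eq_mul]
      rfl
    have h3 := D2_deriv r x (φ.comp (ρ b)) (mB b⁻¹ i i * z.1 + mB b⁻¹ i j * z.2) (mB b⁻¹ j j * z.2)
    have h4 : HasDerivAt (fun t : ℂ => mB b⁻¹ i i * t + mB b⁻¹ i j * z.2) (mB b⁻¹ i i) z.1 := by
      have h := ((hasDerivAt_id z.1).const_mul (mB b⁻¹ i i)).add_const (mB b⁻¹ i j * z.2)
      simpa using h
    have h5 := (h3.comp z.1 h4).const_mul (chr χ b)
    rw [h2] at h1
    have h6 := h1.unique h5
    rw [h6, hθ'', map_smul, smul_eq_mul]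
    have h7 : chr (χ - Pi.single i 1) b = chr χ b * mB b⁻¹ i i ^ 1 := by
      have h := D2_chr χ i 1 b
      rwa [Nat.cast_one] at h
    rw [h7, pow_one]
    change chr χ b * (φ (ρ b _) * mB b⁻¹ i i) = _
    ring
  · intro f F F'' hF hF''
    constructor
    · intro v
      apply Subtype.ext
      funext z
      rw [hF, D2_I_apply, D2_I_apply, map_smul]
    · intro x
      obtain ⟨v, rfl⟩ := D2_surj (r + 1) x
      have h1 : F (D2_L V (r + 1) v) = D2_L V (r + 1) (fun l => f (v l)) := by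
        apply Subtype.ext
        funext z
        rw [hF, D2_L_apply, D2_L_apply, map_sum]
        exact Finset.sum_congr rfl fun l _ => map_smul _ _ _
      rw [h1, D2_P_apply, D2_P_apply]
      apply Subtype.ext
      funext z
      rw [hF'', D2_L_apply, D2_L_apply, map_sum]
      refine Finset.sum_congr rfl fun l _ => ?_
      rw [map_smul, D2_D_apply, D2_D_apply, map_smul]

end PV
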