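import Pool.Agent.Lib.MP_3b3418_ag.PV.SpecD

/-!
# An eigenvector of the Borel subgroup
-/

set_option autoImplicit false

namespace PV

open MP3s

private noncomputable def Eig_mat {m : ℕ} (n : Bo m) (s : ℂ) : Gl m :=
  fun k l => if k ≤ l then s ^ (2 * (l.val - k.val)) * mB n k l else 0

private theorem Eig_upper {m : ℕ} (n : Bo m) (s : ℂ) : Upper (Eig_mat n s) := by
  intro i j hij
  unfold Eig_mat
  rw [if_neg (not_le.2 hij)]

private theorem Eig_det {m : ℕ} (y : Gl m) (hy : Upper y) : y.det = ∏ i, y i i :=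
  Matrix.det_of_upperTriangular (blockTriangular_of_upper hy)

private theorem Eig_mk {m : ℕ} (y : Gl m) (hy : Upper y) (hd : ∏ i, y i i = 1) :
    ∃ b : Bo m, mB b = y :=
  ⟨⟨⟨y, by rw [Eig_det y hy, hd]⟩, hy⟩, rfl⟩

private theorem Eig_ext {m : ℕ} {b c : Bo m} (h : ∀ k l, mB b k l = mB c k l) : b = c :=
  Subtype.ext (Subtype.ext (Matrix.ext h))

private theorem Eig_zprod {m : ℕ} {s : ℂ} (hs : s ≠ 0) (S : Finset (Fin m)) (e : Fin m → ℤ) :
    ∏ i ∈ S, s ^ e i = s ^ ∑ i ∈ S, e i := by
  classical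
  induction S using Finset.induction_on with
  | empty => rw [Finset.prod_empty, Finset.sum_empty, zpow_zero]
  | insert a S ha ih => rw [Finset.prod_insert ha, Finset.sum_insert ha, ih, zpow_add₀ hs]

private theorem Eig_sum0 (m : ℕ) : ∑ k : Fin m, ((m : ℤ) - 1 - 2 * k.val) = 0 := by
  have h1 := Equiv.sum_comp (Fin.revPerm (n := m)) fun k : Fin m => ((m : ℤ) - 1 - 2 * k.val)
  have h2 : ∑ k : Fin m, ((m : ℤ) - 1 - 2 * (Fin.revPerm k).val) =
      ∑ k : Fin m, -((m : ℤ) - 1 - 2 * k.val) := by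
    refine Finset.sum_congr rfl fun k _ => ?_
    have h3 : (Fin.revPerm k).val = m - (k.val + 1) := by
      rw [Fin.revPerm_apply, Fin.val_rev]
    have h4 := k.isLt
    rw [h3]
    omega
  rw [h2, Finset.sum_neg_distrib] at h1
  omega

/-- The height of a weight. -/
private def Eig_h {m : ℕ} (μ : Fin m → ℤ) : ℤ := ∑ k : Fin m, ((m : ℤ) - 1 - 2 * k.val) * μ k

private theorem Eig_torus {m : ℕ} (s : ℂ) (hs : s ≠ 0) : ∃ t : Bo m, IsT t ∧
    (∀ k, mB t k k = s ^ ((m : ℤ) - 1 - 2 * k.val)) ∧ ∀ μ, chr μ t = s ^ Eig_h μ := by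
  have hU : Upper (fun k l : Fin m => if k = l then s ^ ((m : ℤ) - 1 - 2 * k.val) else 0 : Gl m) := by
    intro i j hij
    exact if_neg (ne_of_gt hij)
  have hd : ∏ i : Fin m, (fun k l : Fin m => if k = l then s ^ ((m : ℤ) - 1 - 2 * k.val) else 0 : Gl m)
      i i = 1 := by
    have h1 : ∀ i : Fin m, (fun k l : Fin m => if k = l then s ^ ((m : ℤ) - 1 - 2 * k.val) else 0 : Gl m)
        i i = s ^ ((m : ℤ) - 1 - 2 * i.val) := fun i => if_pos rfl
    rw [Finset.prod_congr rfl fun i _ => h1 i, Eig_zprod hs, Eig_sum0, zpow_zero]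
  obtain ⟨t, ht⟩ := Eig_mk _ hU hd
  have hdiag : ∀ k, mB t k k = s ^ ((m : ℤ) - 1 - 2 * k.val) := fun k => by
    rw [ht]
    exact if_pos rfl
  refine ⟨t, fun i j hij => ?_, hdiag, fun μ => ?_⟩
  · rw [ht]
    exact if_neg hij
  · unfold chr Eig_h
    rw [← Eig_zprod hs]
    refine Finset.prod_congr rfl fun k _ => ?_
    rw [hdiag, zpow_mul]

/-- the scalar lemma -/
private theorem Eig_sc {f : ℂ → ℂ} (hf : RegF f) (N : ℕ) (c : ℂ)
    (h : ∀ s : ℂ, s ≠ 0 → f s * s ^ N = c) : f 0 = f 1 := by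
  have hc : Continuous f := by
    obtain ⟨P, hP⟩ := hf
    have h1 : f = fun s : ℂ => MvPolynomial.eval (fun _ : Unit => s) P := by
      funext s
      exact hP s
    rw [h1]
    exact (MvPolynomial.continuous_eval P).comp (continuous_pi fun _ => continuous_id)
  have h1 : (fun s : ℂ => f s * s ^ N) = fun _ => c := by
    refine Continuous.ext_on (dense_compl_singleton (0 : ℂ)) (hc.mul (continuous_pow N))
      continuous_const fun s hs => h s hs
  have h2 : f 0 * (0 : ℂ) ^ N = c := congrFun h1 0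
  have h3 : f 1 = c := by
    have := h 1 one_ne_zero
    rwa [one_pow, mul_one] at this
  rcases Nat.eq_zero_or_pos N with h0 | h0
  · rw [h0, pow_zero, mul_one] at h2
    rw [h2, h3]
  · rw [zero_pow (by omega), mul_zero] at h2
    have h4 : f = fun _ => 0 := by
      refine Continuous.ext_on (dense_compl_singleton (0 : ℂ)) hc continuous_const fun s hs => ?_
      have h5 := h s hs
      rw [← h2] at h5
      exact (mul_eq_zero.1 h5).resolve_right (pow_ne_zero N hs)
    rw [h4]

private theorem Eig_uni {m : ℕ} {M : Type} [AddCommGroup M] [Module ℂ M]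
    {ρM : Representation ℂ (Bo m) M} (hR : Rat ρM) {ι : Type} (B : Module.Basis ι ℂ M)
    (μ : ι → Fin m → ℤ) (hμ : ∀ a t, IsT t → ρM t (B a) = chr (μ a) t • B a) (a0 : ι)
    (hmax : ∀ a, Eig_h (μ a) ≤ Eig_h (μ a0)) (n : Bo m) (hn : IsN n) : ρM n (B a0) = B a0 := by
  -- the curve
  have h1 : ∀ s : ℂ, ∃ u : Bo m, mB u = Eig_mat n s := fun s => by
    refine Eig_mk _ (Eig_upper n s) ?_
    refine Finset.prod_eq_one fun i _ => ?_
    unfold Eig_mat
    rw [if_pos le_rfl, hn i, Nat.sub_self, mul_zero, pow_zero, mul_one]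
  choose u hu using h1
  have hu1 : u 1 = n := by
    refine Eig_ext fun k l => ?_
    rw [hu]
    unfold Eig_mat
    by_cases hkl : k ≤ l
    · rw [if_pos hkl, one_pow, one_mul]
    · rw [if_neg hkl]
      exact (n.2 k l (not_le.1 hkl)).symm
  have hu0 : u 0 = 1 := by
    refine Eig_ext fun k l => ?_
    rw [hu]
    have h2 : mB (1 : Bo m) k l = if k = l then 1 else 0 := Matrix.one_apply
    rw [h2]
    unfold Eig_mat
    by_cases hkl : k ≤ l
    · rw [if_pos hkl]
      by_cases he : k = l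
      · rw [if_pos he, ← he, hn k, Nat.sub_self, mul_zero, pow_zero, mul_one]
      · have h3 : k.val < l.val := lt_of_le_of_ne hkl (fun h => he (Fin.ext h))
        rw [if_neg he, zero_pow (by omega), zero_mul]
    · rw [if_neg hkl, if_neg (fun h => hkl (le_of_eq h))]
  have hMor : Mor u := by
    intro q
    have h2 : (fun s : ℂ => Co.co (u s) q) = fun s => Eig_mat n s q.1 q.2 := by
      funext s
      rw [← hu]
      rfl
    rw [h2]
    unfold Eig_mat
    by_cases hkl : q.1 ≤ q.2
    · simp only [if_pos hkl]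
      exact ((RegF.co (X := ℂ) ()).pow _).mul (RegF.const _)
    · simp only [if_neg hkl]
      exact RegF.const 0
  -- conjugation by the torus
  have hconj : ∀ s : ℂ, s ≠ 0 → ∀ a, B.coord a (ρM (u s) (B a0)) * s ^ (Eig_h (μ a0) - Eig_h (μ a)).toNat =
      B.coord a (ρM n (B a0)) := by
    intro s hs a
    obtain ⟨t, htT, htd, htc⟩ := Eig_torus (m := m) s hs
    have h2 : u s * t = t * n := by
      refine Eig_ext fun k l => ?_
      rw [mB_mul, mB_mul, Matrix.mul_apply, Matrix.mul_apply,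
        Finset.sum_eq_single l (fun j _ hj => by rw [htT j l hj, mul_zero])
          (fun h => absurd (Finset.mem_univ l) h),
        Finset.sum_eq_single k (fun j _ hj => by rw [htT k j (Ne.symm hj), zero_mul])
          (fun h => absurd (Finset.mem_univ k) h), hu, htd, htd]
      unfold Eig_mat
      by_cases hkl : k ≤ l
      · rw [if_pos hkl]
        have h3 : k.val ≤ l.val := hkl
        have h4 : s ^ (2 * (l.val - k.val)) * s ^ ((m : ℤ) - 1 - 2 * l.val) =
            s ^ ((m : ℤ) - 1 - 2 * k.val) := by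
          rw [← zpow_natCast, ← zpow_add₀ hs]
          congr 1
          push_cast [Nat.cast_sub h3]
          ring
        rw [← h4]
        ring
      · rw [if_neg hkl, zero_mul]
        have h3 : mB n k l = 0 := n.2 k l (not_le.1 hkl)
        rw [h3, mul_zero]
    have h5 : ρM (u s) (ρM t (B a0)) = ρM t (ρM n (B a0)) := by
      have h6 : ρM (u s * t) (B a0) = ρM (t * n) (B a0) := by rw [h2]
      rw [map_mul, map_mul] at h6
      exact h6
    have h7 : ∀ w : M, B.coord a (ρM t w) = chr (μ a) t * B.coord a w := by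
      intro w
      have h8 : (B.coord a).comp (ρM t) = chr (μ a) t • B.coord a := by
        refine B.ext fun b => ?_
        rw [LinearMap.comp_apply, hμ b t htT, map_smul, LinearMap.smul_apply]
        by_cases hab : b = a
        · rw [hab]
        · have h9 : B.coord a (B b) = 0 := by
            rw [Module.Basis.coord_apply, Module.Basis.repr_self, Finsupp.single_eq_of_ne (Ne.symm hab)]
          rw [h9, smul_zero, smul_zero]
      have h9 := LinearMap.congr_fun h8 w
      exact h9
    have h10 := congrArg (B.coord a) h5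
    rw [hμ a0 t htT, map_smul, map_smul, h7, htc, htc, smul_eq_mul] at h10
    have h11 : s ^ (Eig_h (μ a0) - Eig_h (μ a)).toNat * s ^ Eig_h (μ a) = s ^ Eig_h (μ a0) := by
      rw [← zpow_natCast, ← zpow_add₀ hs]
      congr 1
      have := hmax a
      omega
    have h12 : s ^ Eig_h (μ a) ≠ 0 := zpow_ne_zero _ hs
    refine mul_left_cancel₀ h12 ?_
    rw [← h10, ← h11]
    ring
  refine Module.Basis.ext_elem B fun a => ?_
  have hRF : RegF fun s : ℂ => B.coord a (ρM (u s) (B a0)) :=
    (((hR (B a0)).comp hMor).map (B.coord a)).toRegF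
  have h3 := Eig_sc hRF _ _ fun s hs => hconj s hs a
  beta_reduce at h3
  rw [hu0, hu1, map_one] at h3
  exact h3.symm

theorem tEig : S_Eig := by
  classical
  intro m M _ _ _ ρM Λ hR hW hN
  obtain ⟨b, hbW, hbs, hbi⟩ := exists_linearIndependent ℂ
    {v : M | ∃ μ ∈ Λ, ∀ t, IsT t → ρM t v = chr μ t • v}
  have hW' : Submodule.span ℂ b = ⊤ := by
    rw [hbs]
    exact hW
  have hsp : ⊤ ≤ Submodule.span ℂ (Set.range (Subtype.val : b → M)) := by
    rw [Subtype.range_coe, hW']
  let B : Module.Basis b ℂ M := Module.Basis.mk hbi hsp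
  have hBv : ∀ a : b, B a = a.1 := fun a => Module.Basis.mk_apply hbi hsp a
  have hfin : Finite b := Module.Finite.finite_basis B
  have hne : Nonempty b := B.index_nonempty
  have hch : ∀ a : b, ∃ μ ∈ Λ, ∀ t, IsT t → ρM t a.1 = chr μ t • a.1 := fun a => hbW a.2
  choose μ hμΛ hμ using hch
  obtain ⟨a0, ha0⟩ := Finite.exists_max fun a : b => Eig_h (μ a)
  have hμB : ∀ a t, IsT t → ρM t (B a) = chr (μ a) t • B a := fun a t ht => by
    rw [hBv]
    exact hμ a t ht
  refine ⟨B a0, B.ne_zero a0, μ a0, hμΛ a0, fun x => ?_⟩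
  -- decomposition
  have hU : Upper (fun k l : Fin m => if k = l then mB x k k else 0 : Gl m) := by
    intro i j hij
    exact if_neg (ne_of_gt hij)
  have hd : ∏ i : Fin m, (fun k l : Fin m => if k = l then mB x k k else 0 : Gl m) i i = 1 := by
    have h1 : ∀ i : Fin m, (fun k l : Fin m => if k = l then mB x k k else 0 : Gl m) i i =
        mB x i i := fun i => if_pos rfl
    rw [Finset.prod_congr rfl fun i _ => h1 i, ← Eig_det (mB x) x.2]
    exact x.1.2
  obtain ⟨t, ht⟩ := Eig_mk _ hU hd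
  have htT : IsT t := fun i j hij => by
    rw [ht]
    exact if_neg hij
  have htd : ∀ k, mB t k k = mB x k k := fun k => by
    rw [ht]
    exact if_pos rfl
  have hn : IsN (x * t⁻¹) := fun i => by
    have h1 : mB (t * t⁻¹) i i = 1 := by
      rw [mul_inv_cancel]
      exact Matrix.one_apply_eq i
    rw [mB_diag_mul, htd] at h1
    rw [mB_diag_mul]
    exact h1
  have h2 : ρM x (B a0) = ρM (x * t⁻¹) (ρM t (B a0)) := by
    have h3 : ρM ((x * t⁻¹) * t) (B a0) = ρM (x * t⁻¹) (ρM t (B a0)) := by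
      rw [map_mul]
      rfl
    rw [inv_mul_cancel_right] at h3
    exact h3
  rw [h2, hμB a0 t htT, map_smul, Eig_uni hR B μ hμB a0 ha0 _ hn]
  congr 1
  unfold chr
  exact Finset.prod_congr rfl fun k _ => by rw [htd]

end PV
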