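import Pool.Agent.Lib.MP_3b3418_ag.PV.SpecD

/-!
# Module Fil: the filtration argument

Induction on the dimension of `M`: an eigenvector of `B` gives `0 → ℂ → M → M'' → 0`, hence a short
exact sequence of the modules of regular maps, and `S_Tri` applies.
-/

set_option autoImplicit false

namespace PV

open MP3s

/-- Composition with a linear map. -/
private def Fil_map (m : ℕ) {M N : Type} [AddCommGroup M] [Module ℂ M] [AddCommGroup N]
    [Module ℂ N] (L : M →ₗ[ℂ] N) : RG m M →ₗ[ℂ] RG m N where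
  toFun F := ⟨fun g => L (F.1 g), Reg.map F.2 L⟩
  map_add' F F' := Subtype.ext (funext fun g => map_add L (F.1 g) (F'.1 g))
  map_smul' c F := Subtype.ext (funext fun g => map_smul L c (F.1 g))

private theorem Fil_map_apply (m : ℕ) {M N : Type} [AddCommGroup M] [Module ℂ M] [AddCommGroup N]
    [Module ℂ N] (L : M →ₗ[ℂ] N) (F : RG m M) (g : SLm m) :
    (Fil_map m L F).1 g = L (F.1 g) := rfl

/-- Base case: on a module with one element every map kills the cohomology. -/
private theorem Fil_base {m : ℕ} {V : Type} [AddCommGroup V] [Module ℂ V] [Subsingleton V]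
    (θ : Representation ℂ (Bo m) V) (f : V →ₗ[ℂ] V) (q : ℕ) : Zq θ f q := by
  intro φ _ _
  cases q with
  | zero =>
    change (fun β => f (φ β)) = 0
    exact funext fun β => Subsingleton.elim _ _
  | succ p =>
    exact ⟨fun _ => 0, ⟨Reg.zero, fun b β => Subsingleton.elim _ _⟩,
      funext fun β => Subsingleton.elim _ _⟩

private theorem Fil_ind (hM : S_Mor) (hR : S_RGa) (hE : S_Eig) (hT : S_Tri) (m : ℕ)
    (Λ : Set (Fin m → ℤ)) (q : ℕ)
    (hΛ : ∀ μ ∈ Λ, Trv (tw (Representation.trivial ℂ (Bo m) ℂ) μ) q) :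
    ∀ (n : ℕ) (M : Type) [AddCommGroup M] [Module ℂ M] [Module.Finite ℂ M]
      (ρM : Representation ℂ (Bo m) M), Module.finrank ℂ M = n → Rat ρM → WS Λ ρM →
      Trv ρM q := by
  intro n
  induction n with
  | zero =>
    intro M _ _ _ ρM hn _ _ θ _ τ _ x
    have hs : Subsingleton M := Module.finrank_zero_iff.mp hn
    have hs2 : Subsingleton (RG m M) :=
      ⟨fun F F' => Subtype.ext (funext fun g => Subsingleton.elim _ _)⟩
    exact Fil_base θ _ q
  | succ n ih =>
    intro M _ _ _ ρM hn hrat hws θ hθ τ hτ x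
    have hnt : Nontrivial M := Module.nontrivial_of_finrank_pos (R := ℂ) (by omega)
    obtain ⟨v, hv, μ, hμ, hev⟩ := hE m M ρM Λ hrat hws hnt
    -- the quotient representation
    set U : Submodule ℂ M := Submodule.span ℂ {v} with hU
    have hstab : ∀ b : Bo m, U ≤ U.comap (ρM b) := by
      intro b w hw
      obtain ⟨a, rfl⟩ := Submodule.mem_span_singleton.mp hw
      rw [Submodule.mem_comap, map_smul, hev b]
      exact U.smul_mem _ (U.smul_mem _ (Submodule.mem_span_singleton_self v))
    let ρQ : Representation ℂ (Bo m) (M ⧸ U) :=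
      { toFun := fun b => U.mapQ U (ρM b) (hstab b)
        map_one' := by
          refine LinearMap.ext fun w => ?_
          obtain ⟨w, rfl⟩ := U.mkQ_surjective w
          change U.mkQ (ρM 1 w) = U.mkQ w
          rw [map_one]
          rfl
        map_mul' := by
          intro a b
          refine LinearMap.ext fun w => ?_
          obtain ⟨w, rfl⟩ := U.mkQ_surjective w
          change U.mkQ (ρM (a * b) w) = U.mkQ (ρM a (ρM b w))
          rw [map_mul]
          rfl }
    have hρQ : ∀ (b : Bo m) (w : M), ρQ b (U.mkQ w) = U.mkQ (ρM b w) := fun b w => rfl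
    have hratQ : Rat ρQ := by
      intro w
      obtain ⟨w, rfl⟩ := U.mkQ_surjective w
      exact (hrat w).map U.mkQ
    have hwsQ : WS Λ ρQ := by
      unfold WS at hws ⊢
      rw [eq_top_iff, ← U.range_mkQ, ← Submodule.map_top, ← hws, Submodule.map_span]
      refine Submodule.span_mono ?_
      rintro _ ⟨w, ⟨ν, hν, hw⟩, rfl⟩
      exact ⟨ν, hν, fun t ht => by rw [hρQ, hw t ht, map_smul]⟩
    have hnQ : Module.finrank ℂ (M ⧸ U) = n := by
      have h1 := U.finrank_quotient_add_finrank
      have h2 : Module.finrank ℂ U = 1 := finrank_span_singleton hv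
      omega
    have hTQ := ih (M ⧸ U) ρQ hnQ hratQ hwsQ
    -- the one dimensional representation
    have hratL : Rat (tw (Representation.trivial ℂ (Bo m) ℂ) μ) := fun c =>
      (Reg.const (X := Bo m) c).smul ((hM m).2.2.2.2.2 μ)
    obtain ⟨⟨θ', hθ'⟩, ⟨τ', hτ'⟩, -, -⟩ := hR m ℂ _ hratL
    obtain ⟨⟨θ'', hθ''⟩, ⟨τ'', hτ''⟩, -, -⟩ := hR m (M ⧸ U) ρQ hratQ
    obtain ⟨-, -, hMM, -⟩ := hR m M ρM hrat
    obtain ⟨hratθ, hcom⟩ := hMM θ hθ
    let ι₀ : ℂ →ₗ[ℂ] M := LinearMap.toSpanSingleton ℂ M v
    have hι₀ : ∀ c : ℂ, ι₀ c = c • v := fun c => rfl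
    have hinj : Function.Injective ι₀ := by
      intro a b hab
      rw [hι₀, hι₀] at hab
      exact smul_left_injective ℂ hv hab
    obtain ⟨ℓ, hℓ⟩ := ι₀.exists_leftInverse_of_injective (LinearMap.ker_eq_bot.mpr hinj)
    have hℓ' : ∀ c : ℂ, ℓ (ι₀ c) = c := fun c => LinearMap.congr_fun hℓ c
    obtain ⟨s, hs⟩ := U.mkQ.exists_rightInverse_of_surjective U.range_mkQ
    have hs' : ∀ w : M ⧸ U, U.mkQ (s w) = w := fun w => LinearMap.congr_fun hs w
    have hses : Ses θ' θ θ'' (Fil_map m ι₀) (Fil_map m U.mkQ) := by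
      refine ⟨?_, ?_, ?_, ?_, ?_⟩
      · intro F F' h
        refine Subtype.ext (funext fun g => hinj ?_)
        rw [← Fil_map_apply, ← Fil_map_apply, h]
      · intro F
        refine ⟨Fil_map m s F, Subtype.ext (funext fun g => ?_)⟩
        rw [Fil_map_apply, Fil_map_apply, hs']
      · intro F
        constructor
        · intro h
          refine ⟨Fil_map m ℓ F, Subtype.ext (funext fun g => ?_)⟩
          have h1 : U.mkQ (F.1 g) = 0 := by
            rw [← Fil_map_apply, h]
            rfl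
          rw [Submodule.mkQ_apply, Submodule.Quotient.mk_eq_zero] at h1
          obtain ⟨a, ha⟩ := Submodule.mem_span_singleton.mp h1
          rw [Fil_map_apply, Fil_map_apply, ← ha, ← hι₀, hℓ']
        · rintro ⟨F', rfl⟩
          refine Subtype.ext (funext fun g => ?_)
          rw [Fil_map_apply, Fil_map_apply]
          change U.mkQ _ = 0
          rw [Submodule.mkQ_apply, Submodule.Quotient.mk_eq_zero, hι₀]
          exact U.smul_mem _ (Submodule.mem_span_singleton_self v)
      · intro b F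
        refine Subtype.ext (funext fun g => ?_)
        rw [Fil_map_apply, hθ', hθ, Fil_map_apply, hι₀, hι₀, map_smul, hev]
        change (chr μ b • F.1 (g * b.1)) • v = _
        rw [smul_eq_mul, mul_comm, mul_smul]
      · intro b F
        refine Subtype.ext (funext fun g => ?_)
        rw [Fil_map_apply, hθ, hθ'', Fil_map_apply, hρQ]
    refine hT m (RG m ℂ) (RG m M) (RG m (M ⧸ U)) θ' θ θ'' (Fil_map m ι₀) (Fil_map m U.mkQ)
      τ' τ τ'' q hratθ hses (fun y => ⟨fun F => ?_, fun F => ?_⟩) (fun y => hcom τ hτ y)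
      (fun y => hΛ μ hμ θ' hθ' τ' hτ' y) (fun y => hTQ θ'' hθ'' τ'' hτ'' y) x
    · refine Subtype.ext (funext fun g => ?_)
      rw [Fil_map_apply, hτ', hτ, Fil_map_apply]
    · refine Subtype.ext (funext fun g => ?_)
      rw [Fil_map_apply, hτ, hτ'', Fil_map_apply]

theorem tFil : S_Mor → S_RGa → S_Eig → S_Tri → S_Fil := by
  intro hM hR hE hT m Λ q hΛ M _ _ _ ρM hrat hws
  exact Fil_ind hM hR hE hT m Λ q hΛ _ M ρM rfl hrat hws

end PV
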