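import Pool.Agent.Lib.MP_3b3418_ag.PV.SpecD

/-! Combinatorics of the number of ascending pairs. -/

set_option linter.all false

namespace PV

private lemma Iv_swap_lt {m : ℕ} (i j : Fin m) (h : j.val = i.val + 1) (a b : Fin m) (hab : a < b)
    (hne : ¬ (a = i ∧ b = j)) : Equiv.swap i j a < Equiv.swap i j b := by
  rw [Equiv.swap_apply_def, Equiv.swap_apply_def]
  have hab' : a.val < b.val := hab
  by_cases h1 : a = i
  · have h2 : b ≠ j := fun h2 => hne ⟨h1, h2⟩
    have h3 : b ≠ i := by
      intro h3
      rw [h1, h3] at hab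
      exact lt_irrefl _ hab
    rw [if_pos h1, if_neg h3, if_neg h2]
    have h4 : b.val ≠ j.val := fun h4 => h2 (Fin.ext h4)
    rw [Fin.lt_def]
    rw [h1] at hab'
    omega
  · rw [if_neg h1]
    have h1' : a.val ≠ i.val := fun h4 => h1 (Fin.ext h4)
    by_cases h2 : a = j
    · rw [if_pos h2]
      have h3 : b ≠ i := by
        intro h3
        rw [h2, h3] at hab'
        omega
      have h4 : b ≠ j := by
        intro h4
        rw [h2, h4] at hab'
        omega
      rw [if_neg h3, if_neg h4]
      rw [Fin.lt_def]
      rw [h2] at hab'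
      omega
    · rw [if_neg h2]
      have h2' : a.val ≠ j.val := fun h4 => h2 (Fin.ext h4)
      by_cases h3 : b = i
      · rw [if_pos h3]
        rw [h3] at hab'
        rw [Fin.lt_def]
        omega
      · rw [if_neg h3]
        by_cases h4 : b = j
        · rw [if_pos h4]
          rw [h4] at hab'
          rw [Fin.lt_def]
          omega
        · rw [if_neg h4]
          exact hab

private lemma Iv_one {m : ℕ} (η : Fin m → ℤ) (i j : Fin m) (h : j.val = i.val + 1)
    (hη : η j < η i) : invn (fun k => η (Equiv.swap i j k)) = invn η + 1 := by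
  classical
  unfold invn
  have hij : i < j := by
    rw [Fin.lt_def]
    omega
  set φ : Fin m × Fin m → Fin m × Fin m :=
    fun p => (Equiv.swap i j p.1, Equiv.swap i j p.2) with hφ
  have hφφ : ∀ p, φ (φ p) = p := by
    intro p
    simp [hφ, Equiv.swap_apply_self]
  have hinj : Function.Injective φ := fun p q hpq => by
    rw [← hφφ p, ← hφφ q, hpq]
  have key : (Finset.univ.filter fun p : Fin m × Fin m =>
      p.1 < p.2 ∧ η (Equiv.swap i j p.1) < η (Equiv.swap i j p.2)) =
      insert (i, j) ((Finset.univ.filter fun p : Fin m × Fin m =>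
        p.1 < p.2 ∧ η p.1 < η p.2).image φ) := by
    ext ⟨a, b⟩
    simp only [Finset.mem_filter, Finset.mem_univ, true_and, Finset.mem_insert, Finset.mem_image]
    constructor
    · rintro ⟨h1, h2⟩
      by_cases hc : a = i ∧ b = j
      · left
        rw [hc.1, hc.2]
      · right
        refine ⟨φ (a, b), ⟨Iv_swap_lt i j h a b h1 hc, h2⟩, hφφ _⟩
    · rintro (h1 | ⟨⟨c, d⟩, ⟨h1, h2⟩, h3⟩)
      · have ha : a = i := (Prod.mk.inj h1).1
        have hb : b = j := (Prod.mk.inj h1).2
        rw [ha, hb, Equiv.swap_apply_left, Equiv.swap_apply_right]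
        exact ⟨hij, hη⟩
      · have ha : Equiv.swap i j c = a := (Prod.mk.inj h3).1
        have hb : Equiv.swap i j d = b := (Prod.mk.inj h3).2
        rw [← ha, ← hb, Equiv.swap_apply_self, Equiv.swap_apply_self]
        refine ⟨Iv_swap_lt i j h c d h1 ?_, h2⟩
        rintro ⟨hc, hd⟩
        simp only at h2
        rw [hc, hd] at h2
        exact absurd h2 (not_lt.mpr hη.le)
  rw [key, Finset.card_insert_of_notMem, Finset.card_image_of_injective _ hinj]
  intro hmem
  rw [Finset.mem_image] at hmem
  obtain ⟨⟨c, d⟩, h1, h3⟩ := hmem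
  rw [Finset.mem_filter] at h1
  have hc : Equiv.swap i j c = i := (Prod.mk.inj h3).1
  have hd : Equiv.swap i j d = j := (Prod.mk.inj h3).2
  have hc' : c = j := by
    have := congrArg (Equiv.swap i j) hc
    rwa [Equiv.swap_apply_self, Equiv.swap_apply_left] at this
  have hd' : d = i := by
    have := congrArg (Equiv.swap i j) hd
    rwa [Equiv.swap_apply_self, Equiv.swap_apply_right] at this
  have h4 : c < d := h1.2.1
  rw [hc', hd'] at h4
  exact absurd h4 (not_lt.mpr hij.le)

private lemma Iv_anti {m : ℕ} (η : Fin m → ℤ)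
    (h : ∀ i j : Fin m, j.val = i.val + 1 → η j ≤ η i) :
    ∀ (d : ℕ) (a b : Fin m), b.val = a.val + d → η b ≤ η a := by
  intro d
  induction d with
  | zero =>
    intro a b hab
    have : b = a := Fin.ext (by simpa using hab)
    rw [this]
  | succ d ih =>
    intro a b hab
    have hlt : a.val + d < m := by
      have := b.isLt
      omega
    have h1 := ih a ⟨a.val + d, hlt⟩ rfl
    have h2 := h ⟨a.val + d, hlt⟩ b (by simp only; omega)
    exact le_trans h2 h1

private lemma Iv_mono {m : ℕ} (η : Fin m → ℤ)
    (h : ∀ i j : Fin m, j.val = i.val + 1 → η i < η j) :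
    ∀ (d : ℕ) (a b : Fin m), b.val = a.val + (d + 1) → η a < η b := by
  intro d
  induction d with
  | zero =>
    intro a b hab
    exact h a b (by simpa using hab)
  | succ d ih =>
    intro a b hab
    have hlt : a.val + (d + 1) < m := by
      have := b.isLt
      omega
    have h1 := ih a ⟨a.val + (d + 1), hlt⟩ rfl
    have h2 := h ⟨a.val + (d + 1), hlt⟩ b (by simp only; omega)
    exact lt_trans h1 h2

private lemma Iv_card (m : ℕ) :
    (Finset.univ.filter fun p : Fin m × Fin m => p.1 < p.2).card = m * (m - 1) / 2 := by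
  classical
  rw [Finset.card_filter, Fintype.sum_prod_type_right]
  have h1 : ∀ b : Fin m, (∑ a : Fin m, if a < b then 1 else 0) = b.val := by
    intro b
    rw [← Finset.card_filter]
    have : (Finset.univ.filter fun a : Fin m => a < b) = Finset.Iio b := by
      ext a
      simp
    rw [this, Fin.card_Iio]
  simp only [h1]
  rw [Fin.sum_univ_eq_sum_range (fun i => i) m, Finset.sum_range_id]

private lemma Iv_del_lt {m : ℕ} (a b : Fin m) : del m b ≤ del m a ↔ a ≤ b := by
  unfold del
  rw [Fin.le_def]
  omega

private lemma Iv_six {m : ℕ} (η : Fin m → ℤ) (hp : IsPm η)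
    (h : ∀ i j : Fin m, j.val = i.val + 1 → η j ≤ η i) : η = del m := by
  obtain ⟨s, hs⟩ := hp
  have hmono : Monotone s := by
    intro a b hab
    have hab' : a.val ≤ b.val := hab
    have h1 := Iv_anti η h (b.val - a.val) a b (by omega)
    rw [hs a, hs b] at h1
    exact (Iv_del_lt _ _).mp h1
  have hst : StrictMono s := hmono.strictMono_of_injective s.injective
  have hid : (s : Fin m → Fin m) = id := by
    refine (StrictMono.range_inj hst strictMono_id).mp ?_
    rw [s.surjective.range_eq, Function.surjective_id.range_eq]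
  funext k
  rw [hs k]
  rw [hid]
  rfl

theorem tIv : S_Iv := by
  intro m η
  refine ⟨fun i j h hη => Iv_one η i j h hη, fun i j => ⟨?_, ?_⟩, ?_, ?_, ?_, ?_⟩
  · exact Equiv.injective_comp (Equiv.swap i j) η
  · constructor
    · rintro ⟨s, hs⟩
      refine ⟨(Equiv.swap i j).trans s, fun k => ?_⟩
      have := hs (Equiv.swap i j k)
      simp only [Equiv.swap_apply_self] at this
      rw [this]
      rfl
    · rintro ⟨s, hs⟩
      exact ⟨(Equiv.swap i j).trans s, fun k => hs _⟩
  · intro hpos
    by_contra hno
    push Not at hno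
    unfold invn at hpos
    rw [Finset.card_pos] at hpos
    obtain ⟨⟨a, b⟩, hab⟩ := hpos
    rw [Finset.mem_filter] at hab
    have h1 : a.val < b.val := hab.2.1
    have h2 := Iv_anti η hno (b.val - a.val) a b (by omega)
    exact absurd hab.2.2 (not_lt.mpr h2)
  · intro h hinj
    unfold Function.Injective at hinj
    push Not at hinj
    obtain ⟨a, b, hab, hne⟩ := hinj
    have key : ∀ a b : Fin m, η a = η b → a.val < b.val →
        ∃ i j : Fin m, j.val = i.val + 1 ∧ η i = η j := by
      intro a b hab hlt
      have hm : a.val + 1 < m := by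
        have := b.isLt
        omega
      refine ⟨a, ⟨a.val + 1, hm⟩, rfl, ?_⟩
      have h1 := h a ⟨a.val + 1, hm⟩ rfl
      have h2 := Iv_anti η h (b.val - (a.val + 1)) ⟨a.val + 1, hm⟩ b (by simp only; omega)
      rw [← hab] at h2
      exact le_antisymm h2 h1
    rcases Nat.lt_or_ge a.val b.val with hlt | hge
    · exact key a b hab hlt
    · refine key b a hab.symm ?_
      have : a.val ≠ b.val := fun h4 => hne (Fin.ext h4)
      omega
  · intro h
    unfold invn
    rw [← Iv_card m]
    congr 1
    ext ⟨a, b⟩
    simp only [Finset.mem_filter, Finset.mem_univ, true_and]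
    constructor
    · exact fun h1 => h1.1
    · intro h1
      have h1' : a.val < b.val := h1
      exact ⟨h1, Iv_mono η h (b.val - a.val - 1) a b (by omega)⟩
  · exact fun hp h => Iv_six η hp h

end PV
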