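import Pool.Agent.Lib.MP_3b3418_ag.PV.SpecD

/-!
# One dimensional coefficients
-/

set_option autoImplicit false

namespace PV

open MP3s

private theorem OneD_rat (m : ℕ) : Rat (Representation.trivial ℂ (Bo m) ℂ) := by
  intro v
  exact Reg.const v

private theorem OneD_eq {m : ℕ} (μ : Fin m → ℤ) (ρG : Representation ℂ (SLm m) (RG m ℂ))
    (hG : ∀ (y : SLm m) (F : RG m ℂ) (g : SLm m), (ρG y F).1 g = F.1 (g * y))
    (θ : Representation ℂ (Bo m) (RG m ℂ))
    (hθ : IsR (tw (Representation.trivial ℂ (Bo m) ℂ) μ) θ) :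
    θ = tw (ρG.comp (Bor m).subtype) μ := by
  refine MonoidHom.ext fun b => LinearMap.ext fun F => Subtype.ext (funext fun g => ?_)
  rw [hθ b F g]
  change chr μ b • F.1 (g * b.1) = chr μ b • (ρG b.1 F).1 g
  rw [hG]

private theorem OneD_com {m : ℕ} (ρG τ : Representation ℂ (SLm m) (RG m ℂ))
    (hG : ∀ (y : SLm m) (F : RG m ℂ) (g : SLm m), (ρG y F).1 g = F.1 (g * y)) (hτ : IsL τ)
    (x : SLm m) : Com (ρG.comp (Bor m).subtype) (τ x - LinearMap.id) := by
  intro b F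
  have h : τ x (ρG b.1 F) = ρG b.1 (τ x F) := by
    refine Subtype.ext (funext fun g => ?_)
    rw [hτ, hG, hG, hτ, mul_assoc]
  change τ x (ρG b.1 F) - ρG b.1 F = ρG b.1 (τ x F - F)
  rw [h, map_sub]

theorem tOneD : S_RGa → S_Con → S_Bo → S_OneD := by
  intro hRGa hCon hBo m μ q hη θ hθ τ hτ x
  obtain ⟨-, -, -, ρG, hrat, hG⟩ := hRGa m ℂ (Representation.trivial ℂ (Bo m) ℂ) (OneD_rat m)
  have key := hBo m (RG m ℂ) ρG (ρG.comp (Bor m).subtype) hrat (fun _ => rfl)
    (τ x - LinearMap.id) (OneD_com ρG τ hG hτ x) (del m - μ) q (fun h1 h2 => ⟨hη h1 h2, ?_⟩)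
  · rw [sub_sub_cancel] at key
    rw [OneD_eq μ ρG hG θ hθ]
    exact key
  · intro v hv
    have hc : ∀ g h : SLm m, v.1 g = v.1 h := hCon m v.1 v.2 fun g b => by
      have h1 : (ρG b.1 v).1 g = v.1 g := by
        have h2 : ρG b.1 v = v := hv b
        rw [h2]
      rw [← hG, h1]
    have h3 : τ x v = v := by
      refine Subtype.ext (funext fun g => ?_)
      rw [hτ]
      exact hc _ _
    change τ x v - v = 0
    rw [h3, sub_self]

end PV
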