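import Pool.Agent.Lib.MP_3b3418_ag.PV.SpecD

/-!
# Sk: the modules `Sk V k` carry both actions

Both actions have the form `(h f)(z) = κ(h) ρ(h) (f (L_h z))` with a character `κ` and linear
substitutions `L_h` of the two variables whose coefficients are regular functions of `h`. The general
construction is `Sk_gen`; it is applied to `B` and to `SL_2`.
-/

set_option autoImplicit false

namespace PV

open MP3s

section general

variable {H V : Type} [Co H] [AddCommGroup V] [Module ℂ V]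

/-- `Φ h` is a homogeneous polynomial of degree `d` whose coefficients are regular in `h`. -/
private def Sk_Q (d : ℕ) (Φ : H → ℂ × ℂ → V) : Prop :=
  ∃ w : Fin (d + 1) → H → V, (∀ r, Reg (w r)) ∧
    ∀ h z, Φ h z = ∑ r, (z.1 ^ r.val * z.2 ^ (d - r.val)) • w r h

private theorem Sk_const {w : H → V} (hw : Reg w) : Sk_Q 0 fun h _ => w h := by
  refine ⟨fun _ => w, fun _ => hw, fun h z => ?_⟩
  simp

private theorem Sk_add {d : ℕ} {Φ Ψ : H → ℂ × ℂ → V} (hΦ : Sk_Q d Φ) (hΨ : Sk_Q d Ψ) :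
    Sk_Q d fun h z => Φ h z + Ψ h z := by
  obtain ⟨v, hv, h1⟩ := hΦ
  obtain ⟨w, hw, h2⟩ := hΨ
  refine ⟨fun r h => v r h + w r h, fun r => (hv r).add (hw r), fun h z => ?_⟩
  beta_reduce
  rw [h1, h2, ← Finset.sum_add_distrib]
  exact Finset.sum_congr rfl fun r _ => by rw [smul_add]

private theorem Sk_zero (d : ℕ) : Sk_Q d fun (_ : H) _ => (0 : V) := by
  refine ⟨fun _ _ => 0, fun _ => Reg.zero, fun h z => ?_⟩
  simp

private theorem Sk_sum {d : ℕ} {ι : Type} (s : Finset ι) {Φ : ι → H → ℂ × ℂ → V}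
    (hΦ : ∀ i ∈ s, Sk_Q d (Φ i)) : Sk_Q d fun h z => ∑ i ∈ s, Φ i h z := by
  classical
  induction s using Finset.induction_on with
  | empty => simpa using Sk_zero (H := H) (V := V) d
  | insert a s ha ih =>
    have h1 := Sk_add (hΦ a (Finset.mem_insert_self a s))
      (ih fun i hi => hΦ i (Finset.mem_insert_of_mem hi))
    simpa only [Finset.sum_insert ha] using h1

private theorem Sk_mulX {d : ℕ} {Φ : H → ℂ × ℂ → V} (hΦ : Sk_Q d Φ) {a : H → ℂ} (ha : RegF a) :
    Sk_Q (d + 1) fun h z => (a h * z.1) • Φ h z := by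
  obtain ⟨w, hw, h1⟩ := hΦ
  refine ⟨Fin.cons (fun _ => 0) fun r h => a h • w r h, fun r => ?_, fun h z => ?_⟩
  · refine Fin.cases ?_ (fun r => ?_) r
    · rw [Fin.cons_zero]
      exact Reg.zero
    · rw [Fin.cons_succ]
      exact (hw r).smul ha
  · beta_reduce
    rw [h1, Finset.smul_sum, Fin.sum_univ_succ (n := d + 1), Fin.cons_zero, smul_zero, zero_add]
    refine Finset.sum_congr rfl fun r _ => ?_
    rw [Fin.cons_succ, smul_smul, smul_smul, Fin.val_succ]
    have h2 : d + 1 - (r.val + 1) = d - r.val := by omega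
    rw [h2]
    congr 1
    ring

private theorem Sk_mulY {d : ℕ} {Φ : H → ℂ × ℂ → V} (hΦ : Sk_Q d Φ) {b : H → ℂ} (hb : RegF b) :
    Sk_Q (d + 1) fun h z => (b h * z.2) • Φ h z := by
  obtain ⟨w, hw, h1⟩ := hΦ
  refine ⟨Fin.snoc (fun r h => b h • w r h) fun _ => 0, fun r => ?_, fun h z => ?_⟩
  · refine Fin.lastCases ?_ (fun r => ?_) r
    · rw [Fin.snoc_last]
      exact Reg.zero
    · rw [Fin.snoc_castSucc]
      exact (hw r).smul hb
  · beta_reduce
    rw [h1, Finset.smul_sum, Fin.sum_univ_castSucc (n := d + 1), Fin.snoc_last, smul_zero, add_zero]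
    refine Finset.sum_congr rfl fun r _ => ?_
    rw [Fin.snoc_castSucc, smul_smul, smul_smul, Fin.val_castSucc]
    have h2 : d + 1 - r.val = d - r.val + 1 := by have := r.isLt; omega
    rw [h2]
    congr 1
    ring

private theorem Sk_mulL {d : ℕ} {Φ : H → ℂ × ℂ → V} (hΦ : Sk_Q d Φ) {a b : H → ℂ} (ha : RegF a)
    (hb : RegF b) : Sk_Q (d + 1) fun h z => (a h * z.1 + b h * z.2) • Φ h z := by
  have h1 := Sk_add (Sk_mulX hΦ ha) (Sk_mulY hΦ hb)
  simpa only [add_smul] using h1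

private theorem Sk_pow {d : ℕ} {Φ : H → ℂ × ℂ → V} (hΦ : Sk_Q d Φ) {a b : H → ℂ} (ha : RegF a)
    (hb : RegF b) (l : ℕ) : Sk_Q (d + l) fun h z => (a h * z.1 + b h * z.2) ^ l • Φ h z := by
  induction l with
  | zero => simpa only [pow_zero, one_smul, add_zero] using hΦ
  | succ l ih =>
    have h1 := Sk_mulL ih ha hb
    simp only [smul_smul, ← pow_succ'] at h1
    exact h1

/-- A monomial as a linear map from `V` to `Sk V k`. -/
private def Sk_M (V : Type) [AddCommGroup V] [Module ℂ V] (k : ℕ) (r : Fin (k + 1)) :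
    V →ₗ[ℂ] Sk V k where
  toFun v := ⟨fun z => (z.1 ^ r.val * z.2 ^ (k - r.val)) • v, Pi.single r v, fun z => by
    rw [Finset.sum_eq_single r]
    · rw [Pi.single_eq_same]
    · intro l _ hl
      rw [Pi.single_eq_of_ne hl, smul_zero]
    · intro h
      exact absurd (Finset.mem_univ r) h⟩
  map_add' v w := Subtype.ext (funext fun z => smul_add _ _ _)
  map_smul' c v := Subtype.ext (funext fun z => smul_comm _ _ _)

private theorem Sk_mem {k : ℕ} {Φ : H → ℂ × ℂ → V} (hΦ : Sk_Q k Φ) (h : H) : Φ h ∈ Sk V k := by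
  obtain ⟨w, hw, h1⟩ := hΦ
  exact ⟨fun r => w r h, fun z => h1 h z⟩

private theorem Sk_reg {k : ℕ} {Φ : H → ℂ × ℂ → V} (hΦ : Sk_Q k Φ) (Ψ : H → Sk V k)
    (hΨ : ∀ h, (Ψ h).1 = Φ h) : Reg Ψ := by
  obtain ⟨w, hw, h1⟩ := hΦ
  have h2 : Reg fun h => ∑ r, Sk_M V k r (w r h) :=
    Reg.sum Finset.univ fun r _ => (hw r).map (Sk_M V k r)
  have h3 : (fun h => ∑ r, Sk_M V k r (w r h)) = Ψ := by
    funext h
    refine Subtype.ext ?_
    rw [hΨ]
    funext z
    rw [h1, AddSubmonoidClass.coe_finsetSum, Finset.sum_apply]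
    rfl
  rw [h3] at h2
  exact h2

/-- The linear substitution. -/
private def Sk_L (A : H → Matrix (Fin 2) (Fin 2) ℂ) (h : H) (z : ℂ × ℂ) : ℂ × ℂ :=
  (A h 0 0 * z.1 + A h 0 1 * z.2, A h 1 0 * z.1 + A h 1 1 * z.2)

private theorem Sk_sub {k : ℕ} (A : H → Matrix (Fin 2) (Fin 2) ℂ) (hA : ∀ a b, RegF fun h => A h a b)
    (κ : H → ℂ) (hκ : RegF κ) (T : H → V →ₗ[ℂ] V) (hT : ∀ v, Reg fun h => T h v) (f : Sk V k) :
    Sk_Q k fun h z => κ h • T h (f.1 (Sk_L A h z)) := by
  obtain ⟨f, v, hv⟩ := f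
  have h1 : ∀ l : Fin (k + 1), Sk_Q k fun h z =>
      (A h 0 0 * z.1 + A h 0 1 * z.2) ^ l.val •
        ((A h 1 0 * z.1 + A h 1 1 * z.2) ^ (k - l.val) • (κ h • T h (v l))) := by
    intro l
    have h2 := Sk_pow (Sk_pow (Sk_const ((hT (v l)).smul hκ)) (hA 1 0) (hA 1 1) (k - l.val))
      (hA 0 0) (hA 0 1) l.val
    have h3 : 0 + (k - l.val) + l.val = k := by have := l.isLt; omega
    rw [h3] at h2
    exact h2
  have h2 := Sk_sum Finset.univ fun l _ => h1 l
  have h3 : (fun h z => κ h • T h (f (Sk_L A h z))) = fun (h : H) (z : ℂ × ℂ) =>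
      ∑ l : Fin (k + 1), (A h 0 0 * z.1 + A h 0 1 * z.2) ^ l.val •
        ((A h 1 0 * z.1 + A h 1 1 * z.2) ^ (k - l.val) • (κ h • T h (v l))) := by
    funext h z
    rw [hv, map_sum, Finset.smul_sum]
    refine Finset.sum_congr rfl fun l _ => ?_
    rw [map_smul, smul_smul, smul_smul, smul_smul]
    congr 1
    simp only [Sk_L]
    ring
  change Sk_Q k fun h z => κ h • T h (f (Sk_L A h z))
  rw [h3]
  exact h2

end general

/-- The general construction. -/
private theorem Sk_gen {H V : Type} [Group H] [Co H] [AddCommGroup V] [Module ℂ V] (k : ℕ)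
    (A : H → Matrix (Fin 2) (Fin 2) ℂ) (hA : ∀ a b, RegF fun h => A h a b) (hA1 : A 1 = 1)
    (hAm : ∀ g h, A (g * h) = A h * A g) (κ : H → ℂ) (hκ : RegF κ) (hκ1 : κ 1 = 1)
    (hκm : ∀ g h, κ (g * h) = κ g * κ h) (ρ : Representation ℂ H V) (hρ : Rat ρ) :
    ∃ θ : Representation ℂ H (Sk V k), Rat θ ∧
      ∀ h f z, (θ h f).1 z = κ h • ρ h (f.1 (Sk_L A h z)) := by
  have hQ := fun f : Sk V k => Sk_sub A hA κ hκ (fun h => ρ h) hρ f
  let T : H → Sk V k →ₗ[ℂ] Sk V k := fun h =>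
    { toFun := fun f => ⟨fun z => κ h • ρ h (f.1 (Sk_L A h z)), Sk_mem (hQ f) h⟩
      map_add' := fun f g => Subtype.ext (funext fun z => by
        change κ h • ρ h (f.1 _ + g.1 _) = κ h • ρ h (f.1 _) + κ h • ρ h (g.1 _)
        rw [map_add, smul_add])
      map_smul' := fun c f => Subtype.ext (funext fun z => by
        change κ h • ρ h (c • f.1 _) = c • κ h • ρ h (f.1 _)
        rw [map_smul, smul_comm]) }
  have hL1 : ∀ z, Sk_L A 1 z = z := by
    intro z
    simp only [Sk_L, hA1]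
    simp
  have hLm : ∀ g h z, Sk_L A (g * h) z = Sk_L A h (Sk_L A g z) := by
    intro g h z
    simp only [Sk_L, hAm, Matrix.mul_apply, Fin.sum_univ_two]
    refine Prod.ext ?_ ?_
    · change _ = _
      ring
    · change _ = _
      ring
  let θ : Representation ℂ H (Sk V k) :=
    { toFun := T
      map_one' := by
        refine LinearMap.ext fun f => Subtype.ext (funext fun z => ?_)
        change κ 1 • ρ 1 (f.1 (Sk_L A 1 z)) = f.1 z
        rw [hκ1, hL1, one_smul, map_one]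
        rfl
      map_mul' := by
        intro g h
        refine LinearMap.ext fun f => Subtype.ext (funext fun z => ?_)
        change κ (g * h) • ρ (g * h) (f.1 (Sk_L A (g * h) z)) =
          κ g • ρ g (κ h • ρ h (f.1 (Sk_L A h (Sk_L A g z))))
        rw [hκm, hLm, map_mul, map_smul, mul_smul]
        rfl }
  exact ⟨θ, fun f => Sk_reg (hQ f) _ fun h => rfl, fun h f z => rfl⟩

private theorem Sk_mB_ij {m : ℕ} {i j : Fin m} (hij : j.val = i.val + 1) (a b : Bo m) :
    mB (a * b) i j = mB a i i * mB b i j + mB a i j * mB b j j := by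
  have hne : i ≠ j := fun h => by rw [h] at hij; omega
  rw [mB_mul, Matrix.mul_apply]
  have h1 : ∀ k ∈ (Finset.univ : Finset (Fin m)), k ∉ ({i, j} : Finset (Fin m)) →
      mB a i k * mB b k j = 0 := by
    intro k _ hk
    simp only [Finset.mem_insert, Finset.mem_singleton, not_or] at hk
    have hki : k.val ≠ i.val := fun h => hk.1 (Fin.ext h)
    have hkj : k.val ≠ j.val := fun h => hk.2 (Fin.ext h)
    rcases lt_or_ge k.val i.val with h | h
    · have h1 : mB a i k = 0 := a.2 i k (Fin.lt_def.mpr h)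
      rw [h1, zero_mul]
    · have h2 : j.val < k.val := by omega
      have h1 : mB b k j = 0 := b.2 k j (Fin.lt_def.mpr h2)
      rw [h1, mul_zero]
  rw [← Finset.sum_subset (Finset.subset_univ {i, j}) h1, Finset.sum_pair hne]

theorem tSk : S_Mor → S_Emb → S_Sk := by
  intro hMor hEmb m i j hij V _ _ ρ σ hAM k χ
  have hne : i ≠ j := fun h => by rw [h] at hij; omega
  -- the action of `B`
  let A : Bo m → Matrix (Fin 2) (Fin 2) ℂ := fun b =>
    !![mB b⁻¹ i i, mB b⁻¹ i j; 0, mB b⁻¹ j j]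
  have hI := (hMor m).2.2.2.1
  have hA : ∀ a b, RegF fun h => A h a b := by
    intro a b
    fin_cases a <;> fin_cases b
    · exact hI (i, i)
    · exact hI (i, j)
    · exact RegF.const 0
    · exact hI (j, j)
  have hone : ∀ k l : Fin m, mB (1 : Bo m)⁻¹ k l = if k = l then 1 else 0 := by
    intro k l
    rw [inv_one]
    exact Matrix.one_apply
  have hA1 : A 1 = 1 := by
    ext a b
    fin_cases a <;> fin_cases b
    · exact (hone i i).trans (if_pos rfl)
    · exact (hone i j).trans (if_neg hne)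
    · rfl
    · exact (hone j j).trans (if_pos rfl)
  have hAm : ∀ g h, A (g * h) = A h * A g := by
    intro g h
    ext a b
    rw [Matrix.mul_apply, Fin.sum_univ_two]
    fin_cases a <;> fin_cases b
    · change mB (g * h)⁻¹ i i = mB h⁻¹ i i * mB g⁻¹ i i + mB h⁻¹ i j * 0
      rw [mul_inv_rev, mB_diag_mul, mul_zero, add_zero]
    · change mB (g * h)⁻¹ i j = mB h⁻¹ i i * mB g⁻¹ i j + mB h⁻¹ i j * mB g⁻¹ j j
      rw [mul_inv_rev, Sk_mB_ij hij]
    · change (0 : ℂ) = 0 * mB g⁻¹ i i + mB h⁻¹ j j * 0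
      rw [zero_mul, mul_zero, add_zero]
    · change mB (g * h)⁻¹ j j = 0 * mB g⁻¹ i j + mB h⁻¹ j j * mB g⁻¹ j j
      rw [mul_inv_rev, mB_diag_mul, zero_mul, zero_add]
  obtain ⟨θ, hθr, hθ⟩ := Sk_gen k A hA hA1 hAm (chr χ) ((hMor m).2.2.2.2.2 χ) (chr_one χ)
    (chr_mul χ) ρ hAM.rat
  -- the action of `SL_2`
  let A' : SLm 2 → Matrix (Fin 2) (Fin 2) ℂ := fun g => mat g⁻¹
  have hA' : ∀ a b, RegF fun h => A' h a b := fun a b => (hMor 2).2.1 (a, b)
  have hA1' : A' 1 = 1 := by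
    change mat (1 : SLm 2)⁻¹ = 1
    rw [inv_one, mat_one]
  have hAm' : ∀ g h, A' (g * h) = A' h * A' g := by
    intro g h
    change mat (g * h)⁻¹ = mat h⁻¹ * mat g⁻¹
    rw [mul_inv_rev, mat_mul]
  obtain ⟨τ, hτr, hτ⟩ := Sk_gen k A' hA' hA1' hAm' (fun _ => 1) (RegF.const 1) rfl
    (fun _ _ => (one_mul 1).symm) σ hAM.rat2
  have hθ' : IsSkB i j k χ ρ θ := by
    intro b f z
    rw [hθ]
    have h1 : Sk_L A b z = (mB b⁻¹ i i * z.1 + mB b⁻¹ i j * z.2, mB b⁻¹ j j * z.2) := by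
      change (mB b⁻¹ i i * z.1 + mB b⁻¹ i j * z.2, (0 : ℂ) * z.1 + mB b⁻¹ j j * z.2) = _
      rw [zero_mul, zero_add]
    rw [h1]
  refine ⟨θ, τ, hθ', ⟨hθr, hτr, ?_⟩, ?_⟩
  · intro g b hg hb
    obtain ⟨e, he, -⟩ := (hEmb m i j hij).1
    have huniq := (hEmb m i j hij).2.2.2
    have h1 : e g = b.1 := huniq g _ _ (he g) hb
    have h2 : Blk i j g⁻¹ (b⁻¹).1 := by
      have h3 := he g⁻¹
      rw [map_inv, h1] at h3
      exact h3
    have hii : mB b⁻¹ i i = mat g⁻¹ 0 0 := by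
      have h3 := h2 i i
      rw [if_pos rfl, if_pos rfl] at h3
      exact h3
    have hij' : mB b⁻¹ i j = mat g⁻¹ 0 1 := by
      have h3 := h2 i j
      rw [if_pos rfl, if_neg hne.symm, if_pos rfl] at h3
      exact h3
    have hji : mat g⁻¹ 1 0 = 0 := by
      have h3 := h2 j i
      rw [if_neg hne.symm, if_pos rfl, if_pos rfl] at h3
      rw [← h3]
      exact (b⁻¹).2 j i (Fin.lt_def.mpr (by omega))
    have hjj : mB b⁻¹ j j = mat g⁻¹ 1 1 := by
      have h3 := h2 j j
      rw [if_neg hne.symm, if_pos rfl, if_neg hne.symm, if_pos rfl] at h3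
      exact h3
    have hdet : mat g 0 0 * mat g 1 1 = 1 := by
      have h3 : (mat g).det = 1 := g.2
      rw [Matrix.det_fin_two, hg, mul_zero, sub_zero] at h3
      exact h3
    have hg0 : mat g 0 0 ≠ 0 := fun h => by
      rw [h, zero_mul] at hdet
      exact zero_ne_one hdet
    have hg1 : mat g 1 1 = (mat g 0 0)⁻¹ := by
      rw [mul_comm] at hdet
      exact eq_inv_of_mul_eq_one_left hdet
    have hchr : chr χ b = mat g 0 0 ^ (χ i - χ j) := by
      unfold chr
      have h3 : ∀ l ∈ (Finset.univ : Finset (Fin m)), l ∉ ({i, j} : Finset (Fin m)) →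
          mB b l l ^ χ l = 1 := by
        intro l _ hl
        simp only [Finset.mem_insert, Finset.mem_singleton, not_or] at hl
        have h4 := hb l l
        rw [if_neg hl.1, if_neg hl.2, if_pos rfl] at h4
        have h5 : mB b l l = 1 := h4
        rw [h5, one_zpow]
      rw [← Finset.prod_subset (Finset.subset_univ {i, j}) h3, Finset.prod_pair hne]
      have h4 := hb i i
      rw [if_pos rfl, if_pos rfl] at h4
      have h5 := hb j j
      rw [if_neg hne.symm, if_pos rfl, if_neg hne.symm, if_pos rfl] at h5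
      have h6 : mB b i i = mat g 0 0 := h4
      have h7 : mB b j j = mat g 1 1 := h5
      rw [h6, h7, hg1, inv_zpow, zpow_sub₀ hg0, div_eq_mul_inv]
    have hρσ : ρ b = σ g := by
      have h3 := hAM.agree g b hg hb
      rw [zpow_zero, one_smul] at h3
      exact h3
    refine LinearMap.ext fun f => Subtype.ext (funext fun z => ?_)
    have h8 : Sk_L A b z = Sk_L A' g z := by
      change (mB b⁻¹ i i * z.1 + mB b⁻¹ i j * z.2, (0 : ℂ) * z.1 + mB b⁻¹ j j * z.2) =
        (mat g⁻¹ 0 0 * z.1 + mat g⁻¹ 0 1 * z.2, mat g⁻¹ 1 0 * z.1 + mat g⁻¹ 1 1 * z.2)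
      rw [hii, hij', hji, hjj]
    rw [hθ, hchr, hρσ, h8]
    change _ = mat g 0 0 ^ (χ i - χ j) • (τ g f).1 z
    rw [hτ, one_smul]
  · intro f
    let F : Sk V k →ₗ[ℂ] Sk V k :=
      { toFun := fun x => ⟨fun z => f (x.1 z), by
          obtain ⟨v, hv⟩ := x.2
          refine ⟨fun l => f (v l), fun z => ?_⟩
          beta_reduce
          rw [hv, map_sum]
          exact Finset.sum_congr rfl fun l _ => by rw [map_smul]⟩
        map_add' := fun x y => Subtype.ext (funext fun z => map_add f _ _)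
        map_smul' := fun c x => Subtype.ext (funext fun z => map_smul f _ _) }
    refine ⟨F, fun x z => rfl, fun hf b x => Subtype.ext (funext fun z => ?_)⟩
    rw [hθ' b (F x) z]
    change f ((θ b x).1 z) = _
    rw [hθ' b x z, map_smul, hf]
    rfl

end PV
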