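import Pool.Agent.Lib.MP_3b3418_ag.PV.SpecD

/-!
# The swap lemma
-/

set_option autoImplicit false

namespace PV

open MP3s

private theorem Sw_id {V : Type} [AddCommGroup V] [Module ℂ V] (k : ℕ) :
    IsSkF (LinearMap.id : V →ₗ[ℂ] V) k LinearMap.id := fun _ _ => rfl

private theorem Sw_second (hSk : S_Sk) (hD2 : S_D2) (hD0 : S_D0) (hL : S_L) (hLC : S_LC)
    (hLD : S_LD) (hVZ : S_VZ) {m : ℕ} {i j : Fin m} (hij : j.val = i.val + 1) {V : Type}
    [AddCommGroup V] [Module ℂ V] (ρ : Representation ℂ (Bo m) V)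
    (σ : Representation ℂ (SLm 2) V) (hα : AlphaMod i j 0 ρ σ) (r : ℕ) (χ' : Fin m → ℤ)
    (hχ : χ' i - χ' j = 2) (θ' : Representation ℂ (Bo m) (Sk V r)) (hθ' : IsSkB i j r χ' ρ θ')
    (hrat : Rat θ') (f : V →ₗ[ℂ] V) (F' : Sk V r →ₗ[ℂ] Sk V r)
    (hcF : Com θ' F') (hF' : IsSkF f r F') (q : ℕ) :
    Zq θ' F' q ↔ Zq (tw ρ (χ' - Pi.single j (r : ℤ))) f q := by
  have hne : i ≠ j := by
    intro h
    rw [h] at hij
    omega
  cases r with
  | zero =>
    have e0 : χ' - Pi.single j ((0 : ℕ) : ℤ) = χ' := by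
      rw [Nat.cast_zero, Pi.single_zero, sub_zero]
    rw [e0]
    obtain ⟨e, he, hef⟩ := hD0 m i j V ρ χ' θ' hθ'
    constructor
    · intro h
      refine (hVZ m _ V θ' (tw ρ χ')).2.1 e.symm F' f q (fun b v => ?_) (fun v => ?_) h
      · apply e.injective
        rw [he, LinearEquiv.apply_symm_apply, LinearEquiv.apply_symm_apply]
      · apply e.injective
        rw [← hef f F' hF', LinearEquiv.apply_symm_apply, LinearEquiv.apply_symm_apply]
    · intro h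
      exact (hVZ m V _ (tw ρ χ') θ').2.1 e f F' q he (fun v => hef f F' hF' v) h
  | succ r =>
    obtain ⟨θ'', τ'', hθ'', hA'', hF''⟩ := hSk m i j hij V ρ σ hα r (χ' - Pi.single i 1)
    obtain ⟨G, hG, -⟩ := hF'' f
    have hc : (χ' - Pi.single i 1 : Fin m → ℤ) i - (χ' - Pi.single i 1 : Fin m → ℤ) j = 1 := by
      rw [Pi.sub_apply, Pi.sub_apply, Pi.single_eq_same, Pi.single_eq_of_ne (Ne.symm hne)]
      omega
    rw [hc] at hA''
    have hVan : ∀ k, Van θ'' k := fun k => hL m i j hij _ θ'' τ'' hA'' k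
    obtain ⟨ι, π, hS, hC⟩ := hD2 m i j hij V ρ r χ' θ' θ'' hθ' hθ''
    have e1 : χ' - Pi.single j ((r + 1 : ℕ) : ℤ) = χ' - Pi.single j ((r : ℤ) + 1) := by
      rw [Nat.cast_add, Nat.cast_one]
    rw [e1]
    have hCmp := hC f F' G hF' hG
    constructor
    · intro h
      exact hLC m V _ _ _ θ' θ'' ι π f F' G q hrat hS hCmp (fun k _ => hVan k) h
    · intro h
      exact hLD m V _ _ _ θ' θ'' ι π f F' G q hrat hS hCmp hcF h (hVan q)

theorem tSw : S_Tw → S_Sk → S_D1 → S_D2 → S_D0 → S_L → S_LA → S_LB → S_LC → S_LD → S_VZ →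
    S_Sw := by
  intro _ hSk hD1 hD2 hD0 hL hLA hLB hLC hLD hVZ m i j hij V _ _ ρ σ hα μ r hr
  have hne : i ≠ j := by
    intro h
    rw [h] at hij
    omega
  obtain ⟨θ, τ, hθ, hA, hF⟩ := hSk m i j hij V ρ σ hα (r + 1) (μ + Pi.single i ((r : ℤ) + 1))
  obtain ⟨θ', τ', hθ', hA', hF'⟩ := hSk m i j hij V ρ σ hα r
    (μ + Pi.single i ((r : ℤ) + 1) - Pi.single j 1)
  have hc : (μ + Pi.single i ((r : ℤ) + 1) : Fin m → ℤ) i -
      (μ + Pi.single i ((r : ℤ) + 1) : Fin m → ℤ) j = 1 := by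
    rw [Pi.add_apply, Pi.add_apply, Pi.single_eq_same, Pi.single_eq_of_ne (Ne.symm hne)]
    omega
  rw [hc] at hA
  have hVan : ∀ k, Van θ k := fun k => hL m i j hij _ θ τ hA k
  obtain ⟨ι, π, hS, hC⟩ := hD1 m i j hij V ρ r (μ + Pi.single i ((r : ℤ) + 1)) θ' θ hθ' hθ
  have e0 : μ + Pi.single i ((r : ℤ) + 1) - Pi.single i ((r : ℤ) + 1) = μ :=
    add_sub_cancel_right _ _
  rw [e0] at hS
  have hχ : (μ + Pi.single i ((r : ℤ) + 1) - Pi.single j 1 : Fin m → ℤ) i -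
      (μ + Pi.single i ((r : ℤ) + 1) - Pi.single j 1 : Fin m → ℤ) j = 2 := by
    rw [Pi.sub_apply, Pi.sub_apply, Pi.add_apply, Pi.add_apply, Pi.single_eq_same,
      Pi.single_eq_same, Pi.single_eq_of_ne hne, Pi.single_eq_of_ne (Ne.symm hne)]
    omega
  have e2 : μ + Pi.single i ((r : ℤ) + 1) - Pi.single j 1 - Pi.single j (r : ℤ) =
      μ + ((r : ℤ) + 1) • root i j := by
    funext k
    simp only [Pi.sub_apply, Pi.add_apply, Pi.smul_apply, Pi.single_apply, root, smul_eq_mul]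
    split_ifs <;> ring
  have key := Sw_second hSk hD2 hD0 hL hLC hLD hVZ hij ρ σ hα r
    (μ + Pi.single i ((r : ℤ) + 1) - Pi.single j 1) hχ θ' hθ' hA'.rat
  rw [e2] at key
  refine ⟨fun f hf q => ?_, ?_⟩
  · obtain ⟨F, hFF, hFc⟩ := hF f
    obtain ⟨F', hFF', hFc'⟩ := hF' f
    have hCmp := hC f F' F hFF' hFF
    rw [← key f F' (hFc' hf) hFF' (q + 1)]
    constructor
    · intro h
      exact hLA m _ _ V θ' θ _ ι π F' F f q hA.rat hS hCmp (hFc hf) h (hVan (q + 1))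
    · intro h
      exact hLB m _ _ V θ' θ _ ι π F' F f q hA.rat hS hCmp (hFc hf) h (hVan q)
  · have h1 : Van θ' 0 :=
      hLC m _ _ V θ' θ _ ι π LinearMap.id LinearMap.id LinearMap.id 0 hA.rat hS
        (hC LinearMap.id LinearMap.id LinearMap.id (Sw_id r) (Sw_id (r + 1)))
        (fun k hk => absurd hk (by omega)) (hVan 0)
    exact (key LinearMap.id LinearMap.id (fun _ _ => rfl) (Sw_id r) 0).1 h1

end PV
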