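import Pool.Agent.Lib.MP_3b3418_ag.PV.SpecD

/-!
# Module Tw: twists by characters
-/

set_option autoImplicit false

namespace PV

open MP3s

private theorem Tw_chr {m : ℕ} {i j : Fin m} (hij : i ≠ j) (μ : Fin m → ℤ) (g : SLm 2) (b : Bo m)
    (hg : mat g 1 0 = 0) (hb : Blk i j g b.1) : chr μ b = mat g 0 0 ^ (μ i - μ j) := by
  have hdet : mat g 0 0 * mat g 1 1 = 1 := by
    have h1 : (mat g).det = 1 := g.2
    rw [Matrix.det_fin_two, hg, mul_zero, sub_zero] at h1
    exact h1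
  have h0 : mat g 0 0 ≠ 0 := left_ne_zero_of_mul_eq_one hdet
  have h11 : mat g 1 1 = (mat g 0 0)⁻¹ := eq_inv_of_mul_eq_one_right hdet
  have hi : mB b i i = mat g 0 0 := by
    have h := hb i i
    rw [if_pos rfl, if_pos rfl] at h
    exact h
  have hj : mB b j j = (mat g 0 0)⁻¹ := by
    have h := hb j j
    rw [if_neg hij.symm, if_pos rfl, if_neg hij.symm, if_pos rfl] at h
    rw [← h11]
    exact h
  unfold chr
  rw [Fintype.prod_eq_mul i j hij, hi, hj, inv_zpow, ← zpow_neg, ← zpow_add₀ h0, sub_eq_add_neg]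
  rintro k ⟨hki, hkj⟩
  have h := hb k k
  rw [if_neg hki, if_neg hkj, if_pos rfl] at h
  have h' : mB b k k = 1 := h
  rw [h', one_zpow]

private theorem Tw_rat (hM : S_Mor) {m : ℕ} {V : Type} [AddCommGroup V] [Module ℂ V]
    (ρ : Representation ℂ (Bo m) V) (μ : Fin m → ℤ) (h : Rat ρ) : Rat (tw ρ μ) := fun v =>
  (h v).smul ((hM m).2.2.2.2.2 μ)

theorem tTw : S_Mor → S_Tw := by
  intro hM m i j hij c V _ _ ρ σ μ
  refine ⟨fun h => ⟨Tw_rat hM ρ μ h.rat, h.rat2, ?_⟩, Tw_rat hM ρ μ, ?_, ?_⟩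
  · intro g b hg hb
    have h0 : mat g 0 0 ≠ 0 := by
      have h1 : (mat g).det = 1 := g.2
      rw [Matrix.det_fin_two, hg, mul_zero, sub_zero] at h1
      exact left_ne_zero_of_mul_eq_one h1
    change chr μ b • ρ b = _
    rw [h.agree g b hg hb, Tw_chr hij μ g b hg hb, smul_smul, ← zpow_add₀ h0]
    congr 2
    ring
  · intro μ'
    refine MonoidHom.ext fun b => ?_
    change chr μ' b • chr μ b • ρ b = chr (μ + μ') b • ρ b
    rw [smul_smul]
    congr 1
    unfold chr
    rw [← Finset.prod_mul_distrib]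
    refine Finset.prod_congr rfl fun k _ => ?_
    rw [Pi.add_apply, zpow_add₀ (mB_diag_ne b k), mul_comm]
  · refine MonoidHom.ext fun b => ?_
    change chr 0 b • ρ b = ρ b
    have h2 : chr (0 : Fin m → ℤ) b = 1 := by
      unfold chr
      exact Finset.prod_eq_one fun i _ => by rw [Pi.zero_apply, zpow_zero]
    rw [h2, one_smul]

end PV
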