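import Pool.Agent.Lib.MP_3b3418_ag.PV.SpecD

/-!
# PV, RGa: representations on the regular maps from `SL_m` to `M`
-/

set_option autoImplicit false

namespace PV

open MP3s

section

variable {m : ℕ} {M : Type} [AddCommGroup M] [Module ℂ M]

private theorem RGa_ext {F F' : RG m M} (h : ∀ g, F.1 g = F'.1 g) : F = F' :=
  Subtype.ext (funext h)

/-- Right multiplication is a morphism. -/
private theorem RGa_right (hMor : S_Mor) (y : SLm m) : Mor fun g : SLm m => g * y :=
  Mor.comp (hMor m).1 (Mor.pair Mor.id (Mor.const y))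

/-- Left multiplication is a morphism. -/
private theorem RGa_left (hMor : S_Mor) (y : SLm m) : Mor fun g : SLm m => y * g :=
  Mor.comp (hMor m).1 (Mor.pair (Mor.const y) Mor.id)

/-- The action of `B`. -/
private noncomputable def RGa_th (hMor : S_Mor) (ρM : Representation ℂ (Bo m) M) :
    Representation ℂ (Bo m) (RG m M) where
  toFun b :=
    { toFun := fun F => ⟨fun g => ρM b (F.1 (g * b.1)),
        Reg.map (Reg.comp F.2 (RGa_right hMor b.1)) (ρM b)⟩
      map_add' := fun F F' => RGa_ext fun g => map_add (ρM b) _ _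
      map_smul' := fun c F => RGa_ext fun g => map_smul (ρM b) _ _ }
  map_one' := by
    refine LinearMap.ext fun F => RGa_ext fun g => ?_
    change ρM 1 (F.1 (g * (1 : SLm m))) = F.1 g
    rw [mul_one, map_one]
    rfl
  map_mul' a b := by
    refine LinearMap.ext fun F => RGa_ext fun g => ?_
    change ρM (a * b) (F.1 (g * (a.1 * b.1))) = ρM a (ρM b (F.1 (g * a.1 * b.1)))
    rw [map_mul, mul_assoc]
    rfl

/-- Left translations. -/
private noncomputable def RGa_ta (hMor : S_Mor) : Representation ℂ (SLm m) (RG m M) where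
  toFun x :=
    { toFun := fun F => ⟨fun g => F.1 (x⁻¹ * g), Reg.comp F.2 (RGa_left hMor x⁻¹)⟩
      map_add' := fun F F' => rfl
      map_smul' := fun c F => rfl }
  map_one' := by
    refine LinearMap.ext fun F => RGa_ext fun g => ?_
    change F.1 ((1 : SLm m)⁻¹ * g) = F.1 g
    rw [inv_one, one_mul]
  map_mul' x y := by
    refine LinearMap.ext fun F => RGa_ext fun g => ?_
    change F.1 ((x * y)⁻¹ * g) = F.1 (y⁻¹ * (x⁻¹ * g))
    rw [mul_inv_rev, mul_assoc]

/-- Right translations. -/
private noncomputable def RGa_rh (hMor : S_Mor) : Representation ℂ (SLm m) (RG m M) where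
  toFun y :=
    { toFun := fun F => ⟨fun g => F.1 (g * y), Reg.comp F.2 (RGa_right hMor y)⟩
      map_add' := fun F F' => rfl
      map_smul' := fun c F => rfl }
  map_one' := by
    refine LinearMap.ext fun F => RGa_ext fun g => ?_
    change F.1 (g * (1 : SLm m)) = F.1 g
    rw [mul_one]
  map_mul' y z := by
    refine LinearMap.ext fun F => RGa_ext fun g => ?_
    change F.1 (g * (y * z)) = F.1 (g * y * z)
    rw [mul_assoc]

/-- Regularity in both variables gives regularity of the map to `RG m M`. -/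
private theorem RGa_cur {H : Type} [Co H] (f : H × SLm m → M) (hf : Reg f) (F : H → RG m M)
    (h : ∀ b g, (F b).1 g = f (b, g)) : Reg F := by
  have h1 : ∀ b, (fun g => f (b, g) : SLm m → M) ∈ RG m M := by
    intro b
    have h2 : (fun g => f (b, g) : SLm m → M) = (F b).1 := funext fun g => (h b g).symm
    rw [h2]
    exact (F b).2
  have h3 := Reg.codRestrict (Reg.curry hf) (RG m M) h1
  have h4 : (fun b => (⟨fun g => f (b, g), h1 b⟩ : RG m M)) = F :=
    funext fun b => RGa_ext fun g => (h b g).symm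
  rw [h4] at h3
  exact h3

end

/-- **RGa.** -/
theorem tRGa : S_Mor → S_RGa := by
  intro hMor m M _ _ ρM hM
  refine ⟨⟨RGa_th hMor ρM, fun b F g => rfl⟩, ⟨RGa_ta hMor, fun x F g => rfl⟩,
    fun θ hθ => ⟨fun F => ?_, fun τ hτ x b F => ?_⟩, RGa_rh hMor, fun F => ?_, fun y F g => rfl⟩
  · refine RGa_cur (fun p : Bo m × SLm m => ρM p.1 (F.1 (p.2 * p.1.1))) ?_ (fun b => θ b F)
      fun b g => hθ b F g
    refine Reg.act (θ := fun b : Bo m => ρM b) hM (g := fun p : Bo m × SLm m => p.1) Mor.fst ?_
    refine Reg.comp F.2 (g := fun p : Bo m × SLm m => p.2 * p.1.1) ?_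
    exact Mor.comp (hMor m).1 (Mor.pair Mor.snd (Mor.comp (hMor m).2.2.2.2.1 Mor.fst))
  · refine RGa_ext fun g => ?_
    rw [hτ x (θ b F) g, hθ b F, hθ b (τ x F) g, hτ x F, mul_assoc]
  · refine RGa_cur (fun p : SLm m × SLm m => F.1 (p.2 * p.1)) ?_ (fun y => RGa_rh hMor y F)
      fun y g => rfl
    exact Reg.comp F.2 (g := fun p : SLm m × SLm m => p.2 * p.1)
      (Mor.comp (hMor m).1 (Mor.pair Mor.snd Mor.fst))

end PV
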